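import Pool.Agent.R536.TW.Prog

/-!
# Search for the first halting position; recomputation of a block
-/

namespace Pool.Agent.R536.TW

open Pool.Agent.H588R2.Bank

variable {Z : Type} {m : ℕ} {halt hitp accp : Z → Prop} {nx : Z → Z} {la : Fin m → Z → Z}

/-- Body of the search loop. -/
def srchBody (T : Tb Z m halt hitp accp nx la) (bk : ℕ) : Cmd :=
  .seq (.op (.add 12 11 8)) (.seq (.op (.load 13 bk 12)) (.seq (tab2 14 13 7 17 18 T.app T.D)
    (.seq (tab1 15 14 17 T.hal T.D) (.seq (.ite (.lt 24 15)
      (.seq (.op (.const 24 1)) (.seq (.op (.addc 9 12 0)) (.op (.addc 10 7 0)))) .skip)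
      (.op (.addc 7 14 0))))))

/-- Search in the array `bk`, at the offset `r_11`, of length `r_2`, from the state `r_7`. -/
def srch (T : Tb Z m halt hitp accp nx la) (bk : ℕ) : Cmd :=
  .seq (.op (.const 24 0)) (forC 8 2 (srchBody T bk))

/-- Result of the search after `q` positions. -/
structure SRes (T : Tb Z m halt hitp accp nx la) (off : ℕ) (g : ℕ → Z → Z) (z0 : Z)
    (q : ℕ) (s : St) : Prop where
  z : s.reg 7 = T.cZ (seg g 0 q z0)
  fnd : (s.reg 24 = 0 ∧ ∀ i < q, ¬ halt (seg g 0 (i + 1) z0)) ∨
    (s.reg 24 = 1 ∧ ∃ i0 < q, halt (seg g 0 (i0 + 1) z0) ∧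
      (∀ i < i0, ¬ halt (seg g 0 (i + 1) z0)) ∧ s.reg 9 = off + i0 ∧
      s.reg 10 = T.cZ (seg g 0 i0 z0))

/-- Registers used by the search. -/
def srchL : List ℕ := [7, 8, 9, 10, 12, 13, 14, 15, 17, 18, 24]

theorem tr_srch {w : ℕ} (T : Tb Z m halt hitp accp nx la) (bk off b : ℕ) (g : ℕ → Z → Z) (z0 : Z)
    (s0 : St) (hD : T.D * T.D < 2 ^ w) (hob : off + b < 2 ^ w)
    (hA : ∀ i < b, s0.mem bk (off + i) = T.cE (g i))
    (h2 : s0.reg 2 = b) (h11 : s0.reg 11 = off) (h7 : s0.reg 7 = T.cZ z0) :
    Tr w (srch T bk) s0 (b * (4 * (T.D * T.D) + 4 * T.D + 14) + 4)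
      (fun s => s.mem = s0.mem ∧ SRes T off g z0 b s ∧ Fx srchL s0 s) := by
  have hDge := T.D_ge
  have hDD : T.D ≤ T.D * T.D := Nat.le_mul_of_pos_left T.D (by omega)
  have key : Tr w (srch T bk) s0 (1 + (b * ((4 * (T.D * T.D) + 4 * T.D + 11) + 3) + 3))
      (fun s => s.mem = s0.mem ∧ SRes T off g z0 b s ∧ Fx srchL s0 s) := by
    apply Tr.seq
    apply Tr.const (by omega)
    refine (Tr.forC b (4 * (T.D * T.D) + 4 * T.D + 11)
      (fun q s => s.mem = s0.mem ∧ s.reg 8 = q ∧ s.reg 2 = b ∧ s.reg 11 = off ∧
        SRes T off g z0 q s ∧ Fx srchL s0 s) (by omega) ?_ ?_ ?_).mono ?_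
    · rintro q s ⟨_, h8, h2', _⟩
      exact ⟨h8, h2'⟩
    · rintro q s hq ⟨hm, h8, h2', h11', hres, hfx⟩
      have hbody : Tr w (srchBody T bk) s (1 + (1 + ((4 * (T.D * T.D) + 3) + ((T.D * 4) +
          (((1 + (1 + 1)) + 0 + 2) + 1))))) (fun s' => s'.reg 8 = q ∧
          ((s'.setR 8 (q + 1)).mem = s0.mem ∧ (s'.setR 8 (q + 1)).reg 8 = q + 1 ∧
          (s'.setR 8 (q + 1)).reg 2 = b ∧ (s'.setR 8 (q + 1)).reg 11 = off ∧
          SRes T off g z0 (q + 1) (s'.setR 8 (q + 1)) ∧ Fx srchL s0 (s'.setR 8 (q + 1)))) := by
        apply Tr.seq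
        apply Tr.add
        · rw [h11', h8]; omega
        rw [h11', h8]
        apply Tr.seq
        have hld : (s.setR 12 (off + q)).mem bk ((s.setR 12 (off + q)).reg 12) = T.cE (g q) := by
          rw [St.setR_mem, St.setR_reg, if_pos rfl, hm]
          exact hA q hq
        have hcE := T.cE_lt (g q)
        apply Tr.load
        · rw [hld]; omega
        rw [hld]
        apply Tr.seq
        have r13 : ((s.setR 12 (off + q)).setR 13 (T.cE (g q))).reg 13 = T.cE (g q) := by
          rw [St.setR_reg, if_pos rfl]
        have r7 : ((s.setR 12 (off + q)).setR 13 (T.cE (g q))).reg 7 = T.cZ (seg g 0 q z0) := by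
          rw [St.setR_reg, if_neg (by decide), St.setR_reg, if_neg (by decide), hres.z]
        refine (tr_tab2 (by decide) (by decide) (by decide) (by decide) (by decide)
          (by decide) _ hD T.app_lt (by rw [r13]; exact hcE) (by rw [r7]; exact T.cZ_lt _)).mono ?_
        rintro s3 ⟨hm3, h14, hfx3⟩
        rw [r13, r7, T.app_eq] at h14
        have h14' : s3.reg 14 = T.cZ (seg g 0 (q + 1) z0) := by
          rw [h14, seg_succ, Nat.zero_add]
        apply Tr.seq
        refine (tr_tab1 (by decide) (by decide) (by decide) T.D _ (by omega)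
          (fun i _ => by have := T.hal_le i; omega) (by rw [h14']; exact T.cZ_lt _)).mono ?_
        rintro s4 ⟨hm4, h15, hfx4⟩
        rw [h14'] at h15
        have f7 : s4.reg 7 = s.reg 7 := by
          rw [hfx4 7 (by decide), hfx3 7 (by decide), St.setR_reg, if_neg (by decide),
            St.setR_reg, if_neg (by decide)]
        have f8 : s4.reg 8 = s.reg 8 := by
          rw [hfx4 8 (by decide), hfx3 8 (by decide), St.setR_reg, if_neg (by decide),
            St.setR_reg, if_neg (by decide)]
        have f2 : s4.reg 2 = s.reg 2 := by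
          rw [hfx4 2 (by decide), hfx3 2 (by decide), St.setR_reg, if_neg (by decide),
            St.setR_reg, if_neg (by decide)]
        have f11 : s4.reg 11 = s.reg 11 := by
          rw [hfx4 11 (by decide), hfx3 11 (by decide), St.setR_reg, if_neg (by decide),
            St.setR_reg, if_neg (by decide)]
        have f24 : s4.reg 24 = s.reg 24 := by
          rw [hfx4 24 (by decide), hfx3 24 (by decide), St.setR_reg, if_neg (by decide),
            St.setR_reg, if_neg (by decide)]
        have f9 : s4.reg 9 = s.reg 9 := by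
          rw [hfx4 9 (by decide), hfx3 9 (by decide), St.setR_reg, if_neg (by decide),
            St.setR_reg, if_neg (by decide)]
        have f10 : s4.reg 10 = s.reg 10 := by
          rw [hfx4 10 (by decide), hfx3 10 (by decide), St.setR_reg, if_neg (by decide),
            St.setR_reg, if_neg (by decide)]
        have f12 : s4.reg 12 = off + q := by
          rw [hfx4 12 (by decide), hfx3 12 (by decide), St.setR_reg, if_neg (by decide),
            St.setR_reg, if_pos rfl]
        have f14 : s4.reg 14 = T.cZ (seg g 0 (q + 1) z0) := by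
          rw [hfx4 14 (by decide), h14']
        have hmem4 : s4.mem = s0.mem := by
          rw [hm4, hm3, St.setR_mem, St.setR_mem, hm]
        have hfx04 : Fx srchL s0 s4 := by
          refine ((hfx.setR (s' := s) (d := 12) (by decide) (off + q)).setR (d := 13) (by decide)
            (T.cE (g q))).trans ?_
          exact (hfx3.mono (by decide)).trans (hfx4.mono (by decide))
        apply Tr.seq
        have hz7 := T.cZ_lt (seg g 0 q z0)
        have hz14 := T.cZ_lt (seg g 0 (q + 1) z0)
        have fin : ∀ s5 : St, s5.mem = s4.mem → s5.reg 14 = s4.reg 14 → s5.reg 8 = s4.reg 8 →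
            s5.reg 2 = s4.reg 2 → s5.reg 11 = s4.reg 11 → Fx srchL s4 s5 →
            ((s5.reg 24 = 0 ∧ ∀ i < q + 1, ¬ halt (seg g 0 (i + 1) z0)) ∨
              (s5.reg 24 = 1 ∧ ∃ i0 < q + 1, halt (seg g 0 (i0 + 1) z0) ∧
              (∀ i < i0, ¬ halt (seg g 0 (i + 1) z0)) ∧ s5.reg 9 = off + i0 ∧
              s5.reg 10 = T.cZ (seg g 0 i0 z0))) →
            Tr w (.op (.addc 7 14 0)) s5 1 (fun s' => s'.reg 8 = q ∧
              ((s'.setR 8 (q + 1)).mem = s0.mem ∧ (s'.setR 8 (q + 1)).reg 8 = q + 1 ∧
              (s'.setR 8 (q + 1)).reg 2 = b ∧ (s'.setR 8 (q + 1)).reg 11 = off ∧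
              SRes T off g z0 (q + 1) (s'.setR 8 (q + 1)) ∧
              Fx srchL s0 (s'.setR 8 (q + 1)))) := by
          intro s5 e0 e14 e8 e2 e11 hfx5 hf
          apply Tr.addc
          · rw [e14, f14]; omega
          rw [e14, f14, Nat.add_zero]
          refine ⟨?_, ?_, ?_, ?_, ?_, ?_, ?_⟩
          · rw [St.setR_reg, if_neg (by decide), e8, f8, h8]
          · rw [St.setR_mem, St.setR_mem, e0, hmem4]
          · rw [St.setR_reg, if_pos rfl]
          · rw [St.setR_reg, if_neg (by decide), St.setR_reg, if_neg (by decide), e2, f2, h2']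
          · rw [St.setR_reg, if_neg (by decide), St.setR_reg, if_neg (by decide), e11, f11, h11']
          · constructor
            · rw [St.setR_reg, if_neg (by decide), St.setR_reg, if_pos rfl]
            · simpa [St.setR_reg] using hf
          · exact ((hfx04.trans hfx5).setR (by decide) _).setR (by decide) _
        apply Tr.ite (T₁ := 1 + (1 + 1)) (T₂ := 0)
        · intro hlt
          have hlt' : s4.reg 24 < s4.reg 15 := hlt
          rw [f24, h15] at hlt'
          have hh := T.hal_le (T.cZ (seg g 0 (q + 1) z0))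
          have h24 : s.reg 24 = 0 := by omega
          have hhalt : halt (seg g 0 (q + 1) z0) := by
            rw [← T.hal_one]; omega
          have hno : ∀ i < q, ¬ halt (seg g 0 (i + 1) z0) := by
            rcases hres.fnd with ⟨_, h⟩ | ⟨h, _⟩
            · exact h
            · omega
          apply Tr.seq
          apply Tr.const (by omega)
          apply Tr.seq
          have a12 : (s4.setR 24 1).reg 12 = off + q := by
            rw [St.setR_reg, if_neg (by decide), f12]
          apply Tr.addc
          · rw [a12]; omega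
          rw [a12, Nat.add_zero]
          have a7 : ((s4.setR 24 1).setR 9 (off + q)).reg 7 = T.cZ (seg g 0 q z0) := by
            rw [St.setR_reg, if_neg (by decide), St.setR_reg, if_neg (by decide), f7, hres.z]
          apply Tr.addc
          · rw [a7]; omega
          rw [a7, Nat.add_zero]
          apply fin
          · simp [St.setR_mem]
          · simp [St.setR_reg]
          · simp [St.setR_reg]
          · simp [St.setR_reg]
          · simp [St.setR_reg]
          · exact (((Fx.refl srchL s4).setR (by decide) _).setR (by decide) _).setR (by decide) _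
          · right
            refine ⟨by simp [St.setR_reg], q, by omega, hhalt, hno, by simp [St.setR_reg],
              by simp [St.setR_reg]⟩
        · intro hlt
          have hlt' : ¬ s4.reg 24 < s4.reg 15 := hlt
          rw [f24, h15] at hlt'
          apply Tr.skip
          apply fin _ rfl rfl rfl rfl rfl (Fx.refl _ _)
          rcases hres.fnd with ⟨h24, hno⟩ | ⟨h24, i0, hi0, ha, hb, hc, hd⟩
          · left
            refine ⟨by rw [f24, h24], ?_⟩
            intro i hi
            rcases Nat.lt_succ_iff_lt_or_eq.1 hi with hi' | rfl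
            · exact hno i hi'
            · intro hh
              rw [← T.hal_one] at hh
              omega
          · right
            exact ⟨by rw [f24, h24], i0, by omega, ha, hb, by rw [f9, hc], by rw [f10, hd]⟩
      exact hbody.le (by omega)
    · refine ⟨?_, ?_, ?_, ?_, ?_, ?_⟩
      · simp [St.setR_mem]
      · simp [St.setR_reg]
      · simp [St.setR_reg, h2]
      · simp [St.setR_reg, h11]
      · constructor
        · simp [St.setR_reg, h7]
        · left
          exact ⟨by simp [St.setR_reg], by intro i hi; omega⟩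
      · exact ((Fx.refl srchL s0).setR (by decide) _).setR (by decide) _
    · rintro s ⟨hm, _, _, _, hres, hfx⟩
      exact ⟨hm, hres, hfx⟩
  exact key.le (by
    have : b * (4 * (T.D * T.D) + 4 * T.D + 11 + 3) = b * (4 * (T.D * T.D) + 4 * T.D + 14) := by
      ring
    omega)

/-- Body of the loop of `recomp`. -/
def recBody (T : Tb Z m halt hitp accp nx la) : Cmd :=
  .seq (.op (.add 12 11 8)) (.seq (.op (.load 13 2 12)) (tab2 21 21 13 17 18 T.comp T.D))

/-- Recompute the entry `r_16` of the array 1 from the block `r_16` of the array 2. -/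
def recomp (T : Tb Z m halt hitp accp nx la) : Cmd :=
  .seq (.op (.mul 11 16 2)) (.seq (.op (.const 21 (T.cE id))) (.seq (forC 8 2 (recBody T))
    (.op (.store 1 16 21))))

/-- Registers used by `recomp`. -/
def recL : List ℕ := [8, 11, 12, 13, 17, 18, 21]

theorem tr_recomp {w : ℕ} (T : Tb Z m halt hitp accp nx la) (b t : ℕ) (g : ℕ → Z → Z)
    (s0 : St) (hD : T.D * T.D < 2 ^ w) (hob : t * b + b < 2 ^ w)
    (hA : ∀ i < b, s0.mem 2 (t * b + i) = T.cE (g (t * b + i)))
    (h2 : s0.reg 2 = b) (h16 : s0.reg 16 = t) :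
    Tr w (recomp T) s0 (b * (4 * (T.D * T.D) + 8) + 6)
      (fun s => s.mem = (s0.setM 1 t (T.cE (seg g (t * b) b))).mem ∧ Fx recL s0 s) := by
  have hDge := T.D_ge
  have hDD : T.D ≤ T.D * T.D := Nat.le_mul_of_pos_left T.D (by omega)
  have hid := T.cE_lt id
  have key : Tr w (recomp T) s0 (1 + (1 + ((b * ((4 * (T.D * T.D) + 5) + 3) + 3) + 1)))
      (fun s => s.mem = (s0.setM 1 t (T.cE (seg g (t * b) b))).mem ∧ Fx recL s0 s) := by
    apply Tr.seq
    apply Tr.mul
    · rw [h16, h2]; omega
    rw [h16, h2]
    apply Tr.seq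
    apply Tr.const (by omega)
    apply Tr.seq
    refine (Tr.forC b (4 * (T.D * T.D) + 5)
      (fun q s => s.mem = s0.mem ∧ s.reg 8 = q ∧ s.reg 2 = b ∧ s.reg 11 = t * b ∧
        s.reg 16 = t ∧ s.reg 21 = T.cE (seg g (t * b) q) ∧ Fx recL s0 s)
      (by omega) ?_ ?_ ?_).mono ?_
    · rintro q s ⟨_, h8, h2', _⟩
      exact ⟨h8, h2'⟩
    · rintro q s hq ⟨hm, h8, h2', h11', h16', h21, hfx⟩
      have hbody : Tr w (recBody T) s (1 + (1 + (4 * (T.D * T.D) + 3)))
          (fun s' => s'.reg 8 = q ∧ ((s'.setR 8 (q + 1)).mem = s0.mem ∧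
          (s'.setR 8 (q + 1)).reg 8 = q + 1 ∧
          (s'.setR 8 (q + 1)).reg 2 = b ∧ (s'.setR 8 (q + 1)).reg 11 = t * b ∧
          (s'.setR 8 (q + 1)).reg 16 = t ∧
          (s'.setR 8 (q + 1)).reg 21 = T.cE (seg g (t * b) (q + 1)) ∧
          Fx recL s0 (s'.setR 8 (q + 1)))) := by
        apply Tr.seq
        apply Tr.add
        · rw [h11', h8]; omega
        rw [h11', h8]
        apply Tr.seq
        have hld : (s.setR 12 (t * b + q)).mem 2 ((s.setR 12 (t * b + q)).reg 12)
            = T.cE (g (t * b + q)) := by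
          rw [St.setR_mem, St.setR_reg, if_pos rfl, hm]
          exact hA q hq
        have hcE := T.cE_lt (g (t * b + q))
        apply Tr.load
        · rw [hld]; omega
        rw [hld]
        have r13 : ((s.setR 12 (t * b + q)).setR 13 (T.cE (g (t * b + q)))).reg 13
            = T.cE (g (t * b + q)) := by
          rw [St.setR_reg, if_pos rfl]
        have r21 : ((s.setR 12 (t * b + q)).setR 13 (T.cE (g (t * b + q)))).reg 21
            = T.cE (seg g (t * b) q) := by
          rw [St.setR_reg, if_neg (by decide), St.setR_reg, if_neg (by decide), h21]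
        refine (tr_tab2 (by decide) (by decide) (by decide) (by decide) (by decide)
          (by decide) _ hD T.comp_lt (by rw [r21]; exact T.cE_lt _)
          (by rw [r13]; exact hcE)).mono ?_
        rintro s3 ⟨hm3, h21', hfx3⟩
        rw [r13, r21, T.comp_eq] at h21'
        refine ⟨?_, ?_, ?_, ?_, ?_, ?_, ?_, ?_⟩
        · rw [hfx3 8 (by decide), St.setR_reg, if_neg (by decide), St.setR_reg,
            if_neg (by decide), h8]
        · rw [St.setR_mem, hm3, St.setR_mem, St.setR_mem, hm]
        · rw [St.setR_reg, if_pos rfl]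
        · rw [St.setR_reg, if_neg (by decide), hfx3 2 (by decide), St.setR_reg,
            if_neg (by decide), St.setR_reg, if_neg (by decide), h2']
        · rw [St.setR_reg, if_neg (by decide), hfx3 11 (by decide), St.setR_reg,
            if_neg (by decide), St.setR_reg, if_neg (by decide), h11']
        · rw [St.setR_reg, if_neg (by decide), hfx3 16 (by decide), St.setR_reg,
            if_neg (by decide), St.setR_reg, if_neg (by decide), h16']
        · rw [St.setR_reg, if_neg (by decide), h21']
          rfl
        · refine Fx.setR ?_ (by decide) _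
          refine ((hfx.setR (s' := s) (d := 12) (by decide) (t * b + q)).setR (d := 13)
            (by decide) (T.cE (g (t * b + q)))).trans ?_
          exact hfx3.mono (by decide)
      exact hbody.le (by omega)
    · refine ⟨?_, ?_, ?_, ?_, ?_, ?_, ?_⟩
      · simp [St.setR_mem]
      · simp [St.setR_reg]
      · simp [St.setR_reg, h2]
      · simp [St.setR_reg]
      · simp [St.setR_reg, h16]
      · simp [St.setR_reg, seg]
      · exact (((Fx.refl recL s0).setR (by decide) _).setR (by decide) _).setR (by decide) _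
    · rintro s ⟨hm, _, _, _, h16', h21, hfx⟩
      apply Tr.store
      rw [h16', h21]
      refine ⟨?_, ?_⟩
      · funext b' i'
        rw [St.setM_mem, St.setM_mem, hm]
      · intro r hr
        rw [St.setM_reg]
        exact hfx r hr
  exact key.le (by
    have : b * (4 * (T.D * T.D) + 5 + 3) = b * (4 * (T.D * T.D) + 8) := by ring
    omega)

end Pool.Agent.R536.TW
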