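import Pool.Agent.R536.TW.Core
import Pool.Agent.R536.TW.Srch

/-!
# Arrays of letters with deletions
-/

namespace Pool.Agent.R536.TW

open Pool.Agent.H588R2.Bank

variable {Q : Type} {m : ℕ}

/-- Action of a letter on the reachable scanner states. -/
noncomputable def zact (A : DFAwtw Q m) (a : Fin m) (z : Z A) : Z A :=
  ⟨act A a z.1, good_act A a z.1⟩

/-- Action of a letter or of a deleted letter. -/
noncomputable def zactO (A : DFAwtw Q m) : Option (Fin m) → Z A → Z A
  | none => id
  | some a => zact A a

/-- The word stored in the first `k` cells. -/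
def word (L : ℕ → Option (Fin m)) (k : ℕ) : List (Fin m) := (List.range k).filterMap L

theorem word_succ (L : ℕ → Option (Fin m)) (k : ℕ) :
    word L (k + 1) = word L k ++ (L k).toList := by
  unfold word
  rw [List.range_succ, List.filterMap_append]
  congr 1

theorem word_congr {L L' : ℕ → Option (Fin m)} {k : ℕ} (h : ∀ i < k, L i = L' i) :
    word L k = word L' k := by
  induction k with
  | zero => rfl
  | succ k ih => rw [word_succ, word_succ, ih (fun i hi => h i (by omega)), h k (by omega)]

theorem word_del (L : ℕ → Option (Fin m)) {j B : ℕ} (hj : j < B) :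
    ∃ v, word L B = word L j ++ ((L j).toList ++ v) ∧
      word (Function.update L j none) B = word L j ++ v := by
  obtain ⟨d, rfl⟩ : ∃ d, B = j + 1 + d := ⟨B - (j + 1), by omega⟩
  induction d with
  | zero =>
    refine ⟨[], ?_, ?_⟩
    · rw [Nat.add_zero, word_succ, List.append_nil]
    · rw [Nat.add_zero, word_succ, Function.update_self]
      rw [word_congr (L := Function.update L j none) (L' := L)]
      · simp
      · intro i hi
        rw [Function.update_of_ne (by omega)]
  | succ d ih =>
    obtain ⟨v, h1, h2⟩ := ih (by omega)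
    refine ⟨v ++ (L (j + 1 + d)).toList, ?_, ?_⟩
    · rw [← Nat.add_assoc, word_succ, h1]
      simp
    · rw [← Nat.add_assoc, word_succ, h2, Function.update_of_ne (by omega)]
      simp

theorem seg_word (A : DFAwtw Q m) (L : ℕ → Option (Fin m)) (z : Z A) : ∀ k,
    (seg (fun i => zactO A (L i)) 0 k z).1 = scan A z.1 (word L k) := by
  intro k
  induction k with
  | zero => rfl
  | succ k ih =>
    rw [seg_succ, word_succ, scan_append, ← ih, Nat.zero_add]
    cases h : L k with
    | none => simp [zactO]
    | some a => simp [zactO, zact, scan_single]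

/-- The start state of the scanner for the automaton state `q`. -/
def z0 (A : DFAwtw Q m) (q : Q) : Z A := ⟨.run q [], Or.inl rfl⟩

/-- The next start state. -/
def nx (A : DFAwtw Q m) (z : Z A) : Z A :=
  match z with
  | ⟨.hit q, _⟩ => z0 A q
  | z => z

theorem nx_hit (A : DFAwtw Q m) {z : Z A} {p : Q} (h : z.1 = .hit p) : nx A z = z0 A p := by
  obtain ⟨z, hz⟩ := z
  subst h
  rfl

theorem step_hit (A : DFAwtw Q m) (L : ℕ → Option (Fin m)) (q p : Q) {j B : ℕ} (hj : j < B)
    (hB : (seg (fun i => zactO A (L i)) 0 B (z0 A q)).1 = .hit p)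
    (h1 : ¬ Halted (seg (fun i => zactO A (L i)) 0 j (z0 A q)).1)
    (h2 : Halted (seg (fun i => zactO A (L i)) 0 (j + 1) (z0 A q)).1) :
    (A.Accepts (.conf q (word L B)) ↔
      A.Accepts (.conf p (word (Function.update L j none) B))) ∧
    (word (Function.update L j none) B).length + 1 = (word L B).length := by
  have hzj := seg_word A L (z0 A q) j
  have hzj1 := seg_word A L (z0 A q) (j + 1)
  have hzB := seg_word A L (z0 A q) B
  obtain ⟨v, e1, e2⟩ := word_del L hj
  cases hL : L j with
  | none =>
    exfalso
    apply h1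
    rw [seg_succ, Nat.zero_add, hL] at h2
    exact h2
  | some a =>
    rw [hL] at e1
    have e1' : word L B = word L j ++ a :: v := by rw [e1]; simp
    generalize hz : (seg (fun i => zactO A (L i)) 0 j (z0 A q)).1 = z at h1 hzj
    cases z with
    | hit x => exact absurd trivial h1
    | dead => exact absurd trivial h1
    | run q1 p1 =>
      have h3 : (seg (fun i => zactO A (L i)) 0 (j + 1) (z0 A q)).1 = act A a (.run q1 p1) := by
        rw [seg_succ, Nat.zero_add, hL]
        show act A a (seg (fun i => zactO A (L i)) 0 j (z0 A q)).1 = _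
        rw [hz]
      rw [h3] at h2
      have h4 : act A a (.run q1 p1) = .hit p := by
        rw [hB, e1', scan_append, ← hzj, scan_cons, scan_halted A h2] at hzB
        exact hzB.symm
      refine ⟨?_, ?_⟩
      · rw [e1', e2]
        exact accepts_hit A hzj.symm h4
      · rw [e1', e2]
        simp
        omega

theorem step_end (A : DFAwtw Q m) (L : ℕ → Option (Fin m)) (q : Q) {B : ℕ}
    (hB : ¬ ∃ p, (seg (fun i => zactO A (L i)) 0 B (z0 A q)).1 = .hit p) :
    A.Accepts (.conf q (word L B)) ↔ Final A (seg (fun i => zactO A (L i)) 0 B (z0 A q)).1 := by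
  have hzB := seg_word A L (z0 A q) B
  rw [hzB] at hB ⊢
  apply accepts_end
  intro p hp
  exact hB ⟨p, hp⟩

theorem seg_shift {α : Type} (G : ℕ → α → α) (o : ℕ) : ∀ (k : ℕ) (z : α),
    seg (fun i => G (o + i)) 0 k z = seg G o k z := by
  intro k
  induction k with
  | zero => intro z; rfl
  | succ k ih => intro z; rw [seg_succ, seg_succ, ih, Nat.zero_add]

/-- The tables for the automaton. -/
abbrev TA (A : DFAwtw Q m) : Type :=
  Tb (Z A) m (fun z => Halted z.1) (fun z => ∃ p, z.1 = .hit p) (fun z => Final A z.1) (nx A)
    (zact A)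

end Pool.Agent.R536.TW
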