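import Pool.Agent.R536.TW.Defs

/-!
# The scanner of a DFA with translucent words
-/

namespace Pool.Agent.R536.TW

open Classical

variable {Q : Type} {m : ℕ}

/-- States of the scanner: `run q p`: automaton state `q`, the word `p` read since the last
boundary; `hit q'`: a letter was found, the next automaton state is `q'`; `dead`. -/
inductive Sc (Q : Type) (m : ℕ) where
  | run (q : Q) (p : List (Fin m))
  | hit (q : Q)
  | dead

/-- The letter `a` acts on the states of the scanner. -/
noncomputable def act (A : DFAwtw Q m) (a : Fin m) : Sc Q m → Sc Q m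
  | .run q p =>
      if p ++ [a] ∈ A.τ q then .run q []
      else if p = [] ∧ (A.δ q a).isSome then
        (match A.δ q a with
          | some q' => .hit q'
          | none => .dead)
      else if ∃ t ∈ A.τ q, p ++ [a] <+: t then .run q (p ++ [a])
      else .dead
  | .hit q => .hit q
  | .dead => .dead

/-- Scanning a word. -/
noncomputable def scan (A : DFAwtw Q m) (z : Sc Q m) (w : List (Fin m)) : Sc Q m :=
  w.foldl (fun z a => act A a z) z

/-- The scanner has stopped. -/
def Halted : Sc Q m → Prop
  | .run _ _ => False
  | .hit _ => True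
  | .dead => True

theorem act_halted (A : DFAwtw Q m) (a : Fin m) {z : Sc Q m} (h : Halted z) : act A a z = z := by
  cases z with
  | run q p => exact absurd h (by simp [Halted])
  | hit q => rfl
  | dead => rfl

@[simp] theorem scan_nil (A : DFAwtw Q m) (z : Sc Q m) : scan A z [] = z := rfl

theorem scan_append (A : DFAwtw Q m) (z : Sc Q m) (u v : List (Fin m)) :
    scan A z (u ++ v) = scan A (scan A z u) v := by
  simp [scan, List.foldl_append]

theorem scan_cons (A : DFAwtw Q m) (z : Sc Q m) (a : Fin m) (v : List (Fin m)) :
    scan A z (a :: v) = scan A (act A a z) v := rfl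

theorem scan_single (A : DFAwtw Q m) (z : Sc Q m) (a : Fin m) :
    scan A z [a] = act A a z := rfl

theorem scan_halted (A : DFAwtw Q m) {z : Sc Q m} (h : Halted z) (w : List (Fin m)) :
    scan A z w = z := by
  induction w with
  | nil => rfl
  | cons a v ih => rw [scan_cons, act_halted A a h, ih]

theorem scan_prefix (A : DFAwtw Q m) {q : Q} {t : List (Fin m)} (ht : t ∈ A.τ q) :
    ∀ p : List (Fin m), p <+: t → p ≠ t → scan A (.run q []) p = .run q p := by
  have hc := A.prefixCode q ⟨t, ht⟩
  intro p
  induction p using List.reverseRecOn with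
  | nil => intro _ _; rfl
  | append_singleton p a ih =>
    intro h1 h2
    have hp : p <+: t := (List.prefix_append p [a]).trans h1
    have hne : p ≠ t := by
      rintro rfl
      have := h1.length_le
      simp at this
    rw [scan_append, ih hp hne, scan_single]
    have b1 : p ++ [a] ∉ A.τ q := fun hmem =>
      h2 (hc.2 _ (Or.inl hmem) _ (Or.inl ht) h1)
    have b2 : ¬ (p = [] ∧ (A.δ q a).isSome) := by
      rintro ⟨rfl, hs⟩
      exact h2 (hc.2 _ (Or.inr ⟨a, hs, rfl⟩) _ (Or.inl ht) h1)
    have b3 : ∃ t ∈ A.τ q, p ++ [a] <+: t := ⟨t, ht, h1⟩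
    simp only [act, if_neg b1, if_neg b2, if_pos b3]

theorem scan_tau (A : DFAwtw Q m) {q : Q} {t : List (Fin m)} (ht : t ∈ A.τ q) :
    scan A (.run q []) t = .run q [] := by
  have hc := A.prefixCode q ⟨t, ht⟩
  have hne : t ≠ [] := by
    rintro rfl
    exact hc.1 (Or.inl ht)
  obtain ⟨p, a, rfl⟩ : ∃ p a, t = p ++ [a] := ⟨_, _, (List.dropLast_append_getLast hne).symm⟩
  rw [scan_append, scan_prefix A ht p (List.prefix_append _ _) (by simp), scan_single]
  simp only [act, if_pos ht]

theorem scan_star (A : DFAwtw Q m) {q : Q} {u : List (Fin m)} (hu : InStar (A.τ q) u) :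
    scan A (.run q []) u = .run q [] := by
  obtain ⟨l, hl, rfl⟩ := hu
  induction l with
  | nil => rfl
  | cons t l ih =>
    rw [List.flatten_cons, scan_append, scan_tau A (hl t (by simp))]
    exact ih (fun t' ht' => hl t' (by simp [ht']))

theorem act_read (A : DFAwtw Q m) {q p : Q} {a : Fin m} (h : A.δ q a = some p) :
    act A a (.run q []) = .hit p := by
  have hs : (A.δ q a).isSome := by simp [h]
  have b1 : ([] : List (Fin m)) ++ [a] ∉ A.τ q := A.disj q a hs
  simp only [act, if_neg b1, true_and, if_pos hs]
  rw [h]

theorem act_eq_hit (A : DFAwtw Q m) {q q' : Q} {p : List (Fin m)} {a : Fin m}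
    (h : act A a (.run q p) = .hit q') : p = [] ∧ A.δ q a = some q' := by
  simp only [act] at h
  split_ifs at h with h1 h2 h3
  refine ⟨h2.1, ?_⟩
  obtain ⟨x, hx⟩ := Option.isSome_iff_exists.1 h2.2
  rw [hx] at h
  simp only [Sc.hit.injEq] at h
  rw [hx, h]

theorem scan_eq_run (A : DFAwtw Q m) {q : Q} : ∀ (w : List (Fin m)) {q' : Q} {p : List (Fin m)},
    scan A (.run q []) w = .run q' p → q' = q ∧ ∃ u, InStar (A.τ q) u ∧ w = u ++ p := by
  intro w
  induction w using List.reverseRecOn with
  | nil =>
    intro q' p h
    simp only [scan_nil, Sc.run.injEq] at h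
    exact ⟨h.1.symm, [], ⟨[], by simp, rfl⟩, by simp [← h.2]⟩
  | append_singleton w a ih =>
    intro q' p h
    rw [scan_append, scan_single] at h
    cases hz : scan A (.run q []) w with
    | hit x => rw [hz] at h; simp [act] at h
    | dead => rw [hz] at h; simp [act] at h
    | run q₂ p₂ =>
      obtain ⟨rfl, u, hu, rfl⟩ := ih hz
      rw [hz] at h
      simp only [act] at h
      split_ifs at h with h1 h2 h3
      · simp only [Sc.run.injEq] at h
        obtain ⟨rfl, rfl⟩ := h
        refine ⟨rfl, u ++ (p₂ ++ [a]), ?_, by simp⟩
        obtain ⟨l, hl, rfl⟩ := hu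
        refine ⟨l ++ [p₂ ++ [a]], ?_, by simp⟩
        intro t ht
        rcases List.mem_append.1 ht with ht | ht
        · exact hl t ht
        · rw [List.mem_singleton] at ht
          rw [ht]; exact h1
      · obtain ⟨x, hx⟩ := Option.isSome_iff_exists.1 h2.2
        rw [hx] at h
        simp at h
      · simp only [Sc.run.injEq] at h
        obtain ⟨rfl, rfl⟩ := h
        exact ⟨rfl, u, hu, by simp⟩

theorem not_accepts_reject (A : DFAwtw Q m) : ¬ A.Accepts .reject := by
  intro h
  rcases Relation.ReflTransGen.cases_head h with h | ⟨c, h, _⟩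
  · exact absurd h (by simp)
  · cases h

theorem accepts_hit (A : DFAwtw Q m) {q p q₁ : Q} {p₁ u v : List (Fin m)} {a : Fin m}
    (h1 : scan A (.run q []) u = .run q₁ p₁) (h2 : act A a (.run q₁ p₁) = .hit p) :
    A.Accepts (.conf q (u ++ a :: v)) ↔ A.Accepts (.conf p (u ++ v)) := by
  obtain ⟨rfl, u₀, hu₀, hu⟩ := scan_eq_run A u h1
  obtain ⟨rfl, hδ⟩ := act_eq_hit A h2
  rw [List.append_nil] at hu
  subst hu
  have hall : scan A (.run q₁ []) (u ++ a :: v) = .hit p := by
    rw [scan_append, h1, scan_cons, h2]
    exact scan_halted A (by simp [Halted]) v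
  constructor
  · intro h
    rcases Relation.ReflTransGen.cases_head h with h | ⟨c, hs, hc⟩
    · exact absurd h (by simp)
    · generalize hw : u ++ a :: v = w at hs
      cases hs with
      | @read _ p' u' a' v' hu' hδ' =>
        have e1 : scan A (.run q₁ []) u' = .run q₁ [] := scan_star A hu'
        have e2 : scan A (.run q₁ []) (u' ++ [a']) = .hit p' := by
          rw [scan_append, e1, scan_single, act_read A hδ']
        have e3 : scan A (.run q₁ []) (u ++ [a]) = .hit p := by
          rw [scan_append, h1, scan_single, h2]
        have hlen : u.length = u'.length := by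
          rcases lt_trichotomy u.length u'.length with hlt | heq | hgt
          · exfalso
            have hpre : u ++ [a] <+: u' := by
              apply List.prefix_of_prefix_length_le (l₃ := u ++ a :: v)
              · exact ⟨v, by simp⟩
              · rw [hw]; exact List.prefix_append _ _
              · simp; omega
            obtain ⟨x, rfl⟩ := hpre
            rw [scan_append, e3, scan_halted A (by simp [Halted])] at e1
            simp at e1
          · exact heq
          · exfalso
            have hpre : u' ++ [a'] <+: u := by
              apply List.prefix_of_prefix_length_le (l₃ := u ++ a :: v)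
              · rw [hw]; exact ⟨v', by simp⟩
              · exact List.prefix_append _ _
              · simp; omega
            obtain ⟨x, hx⟩ := hpre
            rw [← hx, scan_append, e2, scan_halted A (by simp [Halted])] at h1
            simp at h1
        obtain ⟨rfl, h4⟩ := List.append_inj hw hlen
        simp only [List.cons.injEq] at h4
        obtain ⟨rfl, rfl⟩ := h4
        rw [hδ] at hδ'
        simp only [Option.some.injEq] at hδ'
        subst hδ'
        exact hc
      | stuck => exact absurd hc (not_accepts_reject A)
      | acc hst _ =>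
        rw [← hw] at hst
        have := scan_star A hst
        rw [hall] at this
        simp at this
      | rej => exact absurd hc (not_accepts_reject A)
  · intro h
    exact Relation.ReflTransGen.head (DFAwtw.Step.read hu₀ hδ) h

/-- The scanner state `z` at the end of the word means acceptance. -/
def Final (A : DFAwtw Q m) (z : Sc Q m) : Prop := ∃ q ∈ A.F, z = .run q []

theorem accepts_end (A : DFAwtw Q m) {q : Q} {w : List (Fin m)}
    (h : ∀ p, scan A (.run q []) w ≠ .hit p) :
    A.Accepts (.conf q w) ↔ Final A (scan A (.run q []) w) := by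
  constructor
  · intro ha
    rcases Relation.ReflTransGen.cases_head ha with ha | ⟨c, hs, hc⟩
    · exact absurd ha (by simp)
    · cases hs with
      | @read _ p u a v hu hδ =>
        exfalso
        apply h p
        rw [scan_append, scan_star A hu, scan_cons, act_read A hδ]
        exact scan_halted A (by simp [Halted]) v
      | stuck => exact absurd hc (not_accepts_reject A)
      | acc hst hF => exact ⟨q, hF, scan_star A hst⟩
      | rej => exact absurd hc (not_accepts_reject A)
  · rintro ⟨q', hF, he⟩
    obtain ⟨rfl, u, hu, hw⟩ := scan_eq_run A w he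
    rw [List.append_nil] at hw
    subst hw
    exact Relation.ReflTransGen.single (DFAwtw.Step.acc hu hF)

/-- Reachable scanner states. -/
def Good (A : DFAwtw Q m) : Sc Q m → Prop
  | .run q p => p = [] ∨ ∃ t ∈ A.τ q, p <+: t
  | .hit _ => True
  | .dead => True

theorem good_act (A : DFAwtw Q m) (a : Fin m) (z : Sc Q m) : Good A (act A a z) := by
  cases z with
  | run q p =>
    simp only [act]
    split_ifs with h1 h2 h3
    · exact Or.inl rfl
    · obtain ⟨x, hx⟩ := Option.isSome_iff_exists.1 h2.2
      rw [hx]
      trivial
    · exact Or.inr h3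
    · trivial
  | hit q => trivial
  | dead => trivial

/-- The type of reachable scanner states. -/
def Z (A : DFAwtw Q m) : Type := {z : Sc Q m // Good A z}

instance finite_Z [Finite Q] (A : DFAwtw Q m) : Finite (Z A) := by
  have h1 : Set.Finite (⋃ q : Q, (fun p => Sc.run q p) ''
      ({[]} ∪ ⋃ t ∈ A.τ q, {p | p ∈ t.inits})) := by
    apply Set.finite_iUnion
    intro q
    apply Set.Finite.image
    apply Set.Finite.union (Set.finite_singleton _)
    apply Set.Finite.biUnion (Finset.finite_toSet _)
    intro t _
    exact List.finite_toSet _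
  have h2 : Set.Finite (Set.range (fun q : Q => (Sc.hit q : Sc Q m))) := Set.finite_range _
  have h3 : Set.Finite {z : Sc Q m | Good A z} := by
    refine ((h1.union h2).union (Set.finite_singleton Sc.dead)).subset ?_
    intro z hz
    cases z with
    | run q p =>
      left; left
      rw [Set.mem_iUnion]
      refine ⟨q, p, ?_, rfl⟩
      rcases hz with rfl | ⟨t, ht, hp⟩
      · left; rfl
      · right
        rw [Set.mem_iUnion₂]
        exact ⟨t, ht, (List.mem_inits _ _).2 hp⟩
    | hit q => left; right; exact ⟨q, rfl⟩
    | dead => right; rfl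
  exact h3

end Pool.Agent.R536.TW
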