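import Mathlib

/-!
# Deterministic finite automata with translucent words
-/

namespace Pool.Agent.R536.TW

/-- `X` is a prefix code: a set of nonempty words, none of which is a proper prefix of another. -/
def IsPrefixCode {S : Type} (X : Set (List S)) : Prop :=
  [] ∉ X ∧ ∀ u ∈ X, ∀ v ∈ X, u <+: v → u = v

/-- A deterministic finite automaton with translucent words, over the alphabet `Fin m`, with state
set `Q`. `τ q` is the finite set of words translucent for `q` and `δ` is the partial transition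
function; `(δ q a).isSome` says that `a ∈ Σ_q`. -/
structure DFAwtw (Q : Type) (m : ℕ) where
  τ : Q → Finset (List (Fin m))
  δ : Q → Fin m → Option Q
  q₀ : Q
  F : Set Q
  /-- `τ(q) ∪ Σ_q` is a prefix code whenever `τ(q)` is nonempty. -/
  prefixCode : ∀ q, (τ q).Nonempty →
    IsPrefixCode ({t | t ∈ τ q} ∪ {t | ∃ a, (δ q a).isSome ∧ t = [a]})
  /-- `τ(q)` and `Σ_q` are disjoint. -/
  disj : ∀ q a, (δ q a).isSome → [a] ∉ τ q

variable {Q : Type} {m : ℕ}

/-- `w ∈ X*`. -/
def InStar (X : Finset (List (Fin m))) (w : List (Fin m)) : Prop :=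
  ∃ l : List (List (Fin m)), (∀ t ∈ l, t ∈ X) ∧ l.flatten = w

/-- Configurations: `q w`, Accept and Reject. -/
inductive Cfg (Q : Type) (m : ℕ) where
  | conf (q : Q) (w : List (Fin m))
  | accept
  | reject

/-- One computation step. -/
inductive DFAwtw.Step (A : DFAwtw Q m) : Cfg Q m → Cfg Q m → Prop
  /-- `w = u a v` with `u ∈ τ(q)*` and `a ∈ Σ_q`: the letter `a` is read and deleted. -/
  | read {q p u a v} : InStar (A.τ q) u → A.δ q a = some p →
      A.Step (.conf q (u ++ a :: v)) (.conf p (u ++ v))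
  /-- `w = u a v` with `u ∈ τ(q)*`, `a ∉ Σ_q` and `a v ∉ τ(q) Σ*`: reject. -/
  | stuck {q u a v} : InStar (A.τ q) u → A.δ q a = none → (¬ ∃ t ∈ A.τ q, t <+: a :: v) →
      A.Step (.conf q (u ++ a :: v)) .reject
  /-- `w ∈ τ(q)*` and `q ∈ F`: accept. -/
  | acc {q w} : InStar (A.τ q) w → q ∈ A.F → A.Step (.conf q w) .accept
  /-- `w ∈ τ(q)*` and `q ∉ F`: reject. -/
  | rej {q w} : InStar (A.τ q) w → q ∉ A.F → A.Step (.conf q w) .reject

/-- The configuration `c` leads to Accept. -/
def DFAwtw.Accepts (A : DFAwtw Q m) (c : Cfg Q m) : Prop :=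
  Relation.ReflTransGen A.Step c .accept

/-- The language of accepted words. -/
def DFAwtw.lang (A : DFAwtw Q m) : Set (List (Fin m)) := {w | A.Accepts (.conf A.q₀ w)}

end Pool.Agent.R536.TW
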