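import Pool.Agent.R536.TW.Step

/-!
# The whole program and its running time
-/

namespace Pool.Agent.R536.TW

open Pool.Agent.H588R2.Bank

variable {Q : Type} {m : ℕ} {A : DFAwtw Q m}

/-- Compute the block size. -/
def progA : Cmd :=
  .seq (.op (.const 2 0)) (.seq (.op (.const 19 0)) (.seq (.op (.addc 3 1 1))
    (.loop (.lt 19 3) (.seq (.op (.addc 2 2 1)) (.op (.mul 19 2 2))))))

theorem tr_progA {w n : ℕ} (s0 : St) (h1 : s0.reg 1 = n)
    (hw : (Nat.sqrt n + 1) * (Nat.sqrt n + 1) + (Nat.sqrt n + 1) < 2 ^ w) (hn : n + 1 < 2 ^ w) :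
    Tr w progA s0 (4 * (Nat.sqrt n + 1) + 5) (fun s => s.mem = s0.mem ∧
      s.reg 2 = Nat.sqrt n + 1 ∧ s.reg 19 = (Nat.sqrt n + 1) * (Nat.sqrt n + 1) ∧
      s.reg 1 = n) := by
  have key : Tr w progA s0 (1 + (1 + (1 + ((Nat.sqrt n + 1) * (2 + 2) + 2))))
      (fun s => s.mem = s0.mem ∧
      s.reg 2 = Nat.sqrt n + 1 ∧ s.reg 19 = (Nat.sqrt n + 1) * (Nat.sqrt n + 1) ∧
      s.reg 1 = n) := by
    apply Tr.seq
    apply Tr.const (by omega)
    apply Tr.seq
    apply Tr.const (by omega)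
    apply Tr.seq
    have e1 : ((s0.setR 2 0).setR 19 0).reg 1 = n := by simp [St.setR_reg, h1]
    apply Tr.addc
    · rw [e1]; exact hn
    rw [e1]
    refine (Tr.loop (Nat.sqrt n + 1) 2 (fun q s => s.mem = s0.mem ∧ s.reg 2 = q ∧
      s.reg 19 = q * q ∧ s.reg 3 = n + 1 ∧ s.reg 1 = n) ?_ ?_ ?_).mono ?_
    · rintro q s hq ⟨hm, h2, h19, h3, h1'⟩
      have hqn : q * q ≤ n := by
        have : q ≤ Nat.sqrt n := by omega
        exact Nat.le_sqrt.1 this
      refine ⟨?_, ?_⟩
      · show s.reg 19 < s.reg 3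
        rw [h19, h3]; omega
      · have : Tr w (.seq (.op (.addc 2 2 1)) (.op (.mul 19 2 2))) s (1 + 1)
            (fun s => s.mem = s0.mem ∧ s.reg 2 = q + 1 ∧
            s.reg 19 = (q + 1) * (q + 1) ∧ s.reg 3 = n + 1 ∧ s.reg 1 = n) := by
          apply Tr.seq
          apply Tr.addc
          · rw [h2]; omega
          rw [h2]
          have e2 : (s.setR 2 (q + 1)).reg 2 = q + 1 := by simp [St.setR_reg]
          apply Tr.mul
          · rw [e2]
            have : (q + 1) * (q + 1) ≤ (Nat.sqrt n + 1) * (Nat.sqrt n + 1) :=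
              Nat.mul_le_mul hq hq
            omega
          rw [e2]
          refine ⟨by simp [St.setR_mem, hm], by simp [St.setR_reg], by simp [St.setR_reg],
            by simp [St.setR_reg, h3], by simp [St.setR_reg, h1']⟩
        exact this
    · rintro s ⟨hm, h2, h19, h3, h1'⟩
      show ¬ s.reg 19 < s.reg 3
      rw [h19, h3]
      have := Nat.lt_succ_sqrt n
      simp only [Nat.succ_eq_add_one] at this
      omega
    · refine ⟨by simp [St.setR_mem], by simp [St.setR_reg], by simp [St.setR_reg],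
        by simp [St.setR_reg], by simp [St.setR_reg, h1]⟩
    · rintro s ⟨hm, h2, h19, h3, h1'⟩
      exact ⟨hm, h2, h19, h1'⟩
  exact key.le (by omega)

/-- Fill the array 2. -/
noncomputable def progB (T : TA A) : Cmd :=
  forC 8 19 (.seq (.ite (.lt 8 1) (.seq (.op (.load 13 0 8)) (tab1 14 13 17 T.lc T.D))
    (.op (.const 14 (T.cE id)))) (.op (.store 2 8 14)))

theorem tr_progB {w b : ℕ} (T : TA A) (x : List (Fin m)) (s0 : St)
    (hD : T.D * T.D < 2 ^ w) (hbb : b * b < 2 ^ w)
    (h1 : s0.reg 1 = x.length) (h2 : s0.reg 2 = b) (h19 : s0.reg 19 = b * b)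
    (hx : ∀ i (h : i < x.length), s0.mem 0 i = (x[i]).val) :
    Tr w (progB T) s0 (b * b * (4 * T.D + 8) + 3) (fun s =>
      (∀ j < b * b, s.mem 2 j = T.cE (zactO A (x[j]?))) ∧ s.reg 2 = b ∧
      s.reg 1 = x.length) := by
  have hDge := T.D_ge
  have hDD : T.D ≤ T.D * T.D := Nat.le_mul_of_pos_left T.D (by omega)
  have hid := T.cE_lt id
  refine ((Tr.forC (b * b) ((1 + T.D * 4) + 1 + 2 + 1) (fun q s => s.mem 0 = s0.mem 0 ∧
    s.reg 8 = q ∧ s.reg 19 = b * b ∧ s.reg 1 = x.length ∧ s.reg 2 = b ∧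
    (∀ j < q, s.mem 2 j = T.cE (zactO A (x[j]?)))) hbb ?_ ?_ ?_).mono ?_).le ?_
  · rintro q s ⟨_, h8, h19', _⟩
    exact ⟨h8, h19'⟩
  · rintro q s hq ⟨hm, h8, h19', h1', h2', hL⟩
    apply Tr.seq
    have fin : ∀ s' : St, s'.mem = s.mem → s'.reg 14 = T.cE (zactO A (x[q]?)) →
        (∀ r, r ≠ 13 → r ≠ 14 → r ≠ 17 → s'.reg r = s.reg r) →
        Tr w (.op (.store 2 8 14)) s' 1 (fun s' => s'.reg 8 = q ∧
          ((s'.setR 8 (q + 1)).mem 0 = s0.mem 0 ∧ (s'.setR 8 (q + 1)).reg 8 = q + 1 ∧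
          (s'.setR 8 (q + 1)).reg 19 = b * b ∧ (s'.setR 8 (q + 1)).reg 1 = x.length ∧
          (s'.setR 8 (q + 1)).reg 2 = b ∧
          (∀ j < q + 1, (s'.setR 8 (q + 1)).mem 2 j = T.cE (zactO A (x[j]?))))) := by
      intro s' hm' h14 hr
      apply Tr.store
      have e8 : s'.reg 8 = q := by rw [hr 8 (by decide) (by decide) (by decide), h8]
      rw [e8, h14]
      refine ⟨by rw [St.setM_reg, e8], ?_, ?_, ?_, ?_, ?_, ?_⟩
      · rw [St.setR_mem]
        funext i
        rw [St.setM_mem, if_neg (by simp), hm', hm]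
      · rw [St.setR_reg, if_pos rfl]
      · rw [St.setR_reg, if_neg (by decide), St.setM_reg,
          hr 19 (by decide) (by decide) (by decide), h19']
      · rw [St.setR_reg, if_neg (by decide), St.setM_reg,
          hr 1 (by decide) (by decide) (by decide), h1']
      · rw [St.setR_reg, if_neg (by decide), St.setM_reg,
          hr 2 (by decide) (by decide) (by decide), h2']
      · intro j hj
        rw [St.setR_mem, St.setM_mem]
        by_cases hjq : j = q
        · rw [if_pos ⟨rfl, hjq⟩, hjq]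
        · rw [if_neg (by simp [hjq]), hm']
          exact hL j (by omega)
    apply Tr.ite
    · intro hlt
      have hlt' : q < x.length := by
        have : s.reg 8 < s.reg 1 := hlt
        rw [h8, h1'] at this; exact this
      apply Tr.seq
      have hld : s.mem 0 (s.reg 8) = (x[q]).val := by rw [hm, h8, hx q hlt']
      have hlm : (x[q]).val < T.D := lt_of_lt_of_le (x[q]).isLt T.m_le
      apply Tr.load
      · rw [hld]; omega
      rw [hld]
      have e13 : (s.setR 13 (x[q]).val).reg 13 = (x[q]).val := by simp [St.setR_reg]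
      refine (tr_tab1 (by decide) (by decide) (by decide) T.D _ (by omega)
        (fun i _ => by have := T.lc_lt i; omega) (by rw [e13]; exact hlm)).mono ?_
      rintro s' ⟨hm', h14, hfx⟩
      rw [e13, T.lc_eq] at h14
      apply fin s' (by rw [hm', St.setR_mem])
      · rw [h14, List.getElem?_eq_getElem hlt']
        rfl
      · intro r a1 a2 a3
        rw [hfx r (by simp [a2, a3]), St.setR_reg, if_neg a1]
    · intro hlt
      have hlt' : ¬ q < x.length := by
        intro h
        apply hlt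
        show s.reg 8 < s.reg 1
        rw [h8, h1']; exact h
      apply Tr.const (by omega)
      apply fin _ (by rw [St.setR_mem])
      · rw [St.setR_reg, if_pos rfl, List.getElem?_eq_none (by omega)]
        rfl
      · intro r a1 a2 a3
        rw [St.setR_reg, if_neg a2]
  · refine ⟨by simp [St.setR_mem], by simp [St.setR_reg], by simp [St.setR_reg, h19],
      by simp [St.setR_reg, h1], by simp [St.setR_reg, h2], by intro j hj; omega⟩
  · rintro s ⟨_, _, _, h1', h2', hL⟩
    exact ⟨hL, h2', h1'⟩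
  · have : b * b * (1 + T.D * 4 + 1 + 2 + 1 + 3) = b * b * (4 * T.D + 8) := by ring
    omega

/-- Fill the array 1. -/
noncomputable def progC (T : TA A) : Cmd := forC 16 2 (recomp T)

theorem tr_progC {w b n : ℕ} (T : TA A) (L : ℕ → Option (Fin m)) (s0 : St)
    (hD : T.D * T.D < 2 ^ w) (hbb : b * b + b < 2 ^ w)
    (h2 : s0.reg 2 = b) (h1 : s0.reg 1 = n)
    (hL : ∀ j < b * b, s0.mem 2 j = T.cE (zactO A (L j))) :
    Tr w (progC T) s0 (b * (b * (4 * (T.D * T.D) + 8) + 9) + 3) (fun s =>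
      Rep T L b s ∧ s.reg 2 = b ∧ s.reg 1 = n) := by
  have hb2 : b ≤ b * b ∨ b = 0 := by
    rcases Nat.eq_zero_or_pos b with h | h
    · exact Or.inr h
    · exact Or.inl (Nat.le_mul_of_pos_left b h)
  refine ((Tr.forC b (b * (4 * (T.D * T.D) + 8) + 6) (fun q s => s.mem 2 = s0.mem 2 ∧
    s.reg 16 = q ∧ s.reg 2 = b ∧ s.reg 1 = n ∧
    (∀ t < q, s.mem 1 t = T.cE (seg (fun i => zactO A (L i)) (t * b) b)))
    (by omega) ?_ ?_ ?_).mono ?_).le ?_
  · rintro q s ⟨_, h16, h2', _⟩
    exact ⟨h16, h2'⟩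
  · rintro q s hq ⟨hm, h16, h2', h1', hB⟩
    have hqb : q * b + b ≤ b * b := by
      have : (q + 1) * b ≤ b * b := Nat.mul_le_mul_right _ hq
      rwa [Nat.add_mul, Nat.one_mul] at this
    refine (tr_recomp T b q (fun i => zactO A (L i)) s hD (by omega) ?_ h2' h16).mono ?_
    · intro i hi
      rw [hm]
      exact hL _ (by omega)
    · rintro s' ⟨hm', hfx⟩
      refine ⟨by rw [hfx 16 (by decide), h16], ?_, ?_, ?_, ?_, ?_⟩
      · rw [St.setR_mem, hm']
        funext i
        rw [St.setM_mem, if_neg (by simp), hm]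
      · simp [St.setR_reg]
      · rw [St.setR_reg, if_neg (by decide), hfx 2 (by decide), h2']
      · rw [St.setR_reg, if_neg (by decide), hfx 1 (by decide), h1']
      · intro t ht
        rw [St.setR_mem, hm', St.setM_mem]
        by_cases htq : t = q
        · rw [if_pos ⟨rfl, htq⟩, htq]
        · rw [if_neg (by simp [htq])]
          exact hB t (by omega)
  · refine ⟨by simp [St.setR_mem], by simp [St.setR_reg], by simp [St.setR_reg, h2],
      by simp [St.setR_reg, h1], by intro t ht; omega⟩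
  · rintro s ⟨hm, _, h2', h1', hB⟩
    refine ⟨⟨?_, hB⟩, h2', h1'⟩
    intro j hj
    rw [hm]
    exact hL j hj
  · have : b * (b * (4 * (T.D * T.D) + 8) + 6 + 3) = b * (b * (4 * (T.D * T.D) + 8) + 9) := by ring
    omega

/-- The main loop. -/
noncomputable def progE (T : TA A) : Cmd :=
  forC 4 22 (.ite (.lt 25 5) (mainStep T) .skip)

theorem tr_progE {w b : ℕ} (T : TA A) (L : ℕ → Option (Fin m)) (s0 : St) (n : ℕ)
    (hb : 1 ≤ b) (hD : T.D * T.D < 2 ^ w) (hbb : b * b + b < 2 ^ w) (hn : n + 1 < 2 ^ w)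
    (hrep : Rep T L b s0) (h2 : s0.reg 2 = b) (h25 : s0.reg 25 = 0)
    (h22 : s0.reg 22 = n + 1) (h5 : s0.reg 5 = 1) (h6 : s0.reg 6 = T.cZ (z0 A A.q₀))
    (hlen : (word L (b * b)).length = n) :
    Tr w (progE T) s0 ((n + 1) * (b * (3 * (4 * (T.D * T.D) + 4 * T.D + 14)) + 12 * T.D + 45) + 3)
      (fun s => s.reg 0 ≤ 1 ∧ (s.reg 0 = 1 ↔ A.Accepts (.conf A.q₀ (word L (b * b))))) := by
  refine ((Tr.forC (n + 1) ((b * (3 * (4 * (T.D * T.D) + 4 * T.D + 14)) + 12 * T.D + 40) + 0 + 2)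
    (fun k s => s.reg 4 = k ∧ s.reg 22 = n + 1 ∧ s.reg 2 = b ∧ s.reg 25 = 0 ∧
    ∃ L', Rep T L' b s ∧ ((∃ q, s.reg 5 = 1 ∧ s.reg 6 = T.cZ (z0 A q) ∧
      (A.Accepts (.conf A.q₀ (word L (b * b))) ↔ A.Accepts (.conf q (word L' (b * b)))) ∧
      (word L' (b * b)).length + k = n) ∨
      (s.reg 5 = 0 ∧ s.reg 0 ≤ 1 ∧
      (s.reg 0 = 1 ↔ A.Accepts (.conf A.q₀ (word L (b * b))))))) hn ?_ ?_ ?_).mono ?_).le ?_
  · rintro k s ⟨h4, h22', _⟩
    exact ⟨h4, h22'⟩
  · rintro k s hk ⟨h4, h22', h2', h25', L', hrep', hcase⟩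
    have reps : ∀ {L'' : ℕ → Option (Fin m)} {s' : St}, Rep T L'' b s' →
        Rep T L'' b (s'.setR 4 (k + 1)) := fun h => ⟨h.1, h.2⟩
    rcases hcase with ⟨q, h5', h6', hacc, hlen'⟩ | ⟨h5', h0, hacc⟩
    · apply Tr.ite (T₁ := b * (3 * (4 * (T.D * T.D) + 4 * T.D + 14)) + 12 * T.D + 40) (T₂ := 0)
      · intro _
        refine (tr_mainStep T L' b q s hb hD hbb hrep' h2' h25' h6' h5').mono ?_
        rintro s' ⟨L'', hrep'', hcase', a2, a25, a4, a22⟩
        refine ⟨by rw [a4, h4], by simp [St.setR_reg], by simp [St.setR_reg, a22, h22'],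
          by simp [St.setR_reg, a2], by simp [St.setR_reg, a25], L'', reps hrep'', ?_⟩
        rcases hcase' with ⟨q', b5, b6, bacc, blen⟩ | ⟨b5, b0, bacc⟩
        · left
          refine ⟨q', by simp [St.setR_reg, b5], by simp [St.setR_reg, b6], hacc.trans bacc, ?_⟩
          omega
        · right
          refine ⟨by simp [St.setR_reg, b5], by simp [St.setR_reg, b0], ?_⟩
          rw [hacc, ← bacc]
          simp [St.setR_reg]
      · intro hlt
        exfalso
        apply hlt
        show s.reg 25 < s.reg 5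
        omega
    · apply Tr.ite (T₁ := b * (3 * (4 * (T.D * T.D) + 4 * T.D + 14)) + 12 * T.D + 40) (T₂ := 0)
      · intro hlt
        exfalso
        have : s.reg 25 < s.reg 5 := hlt
        omega
      · intro _
        apply Tr.skip
        refine ⟨h4, by simp [St.setR_reg], by simp [St.setR_reg, h22'],
          by simp [St.setR_reg, h2'], by simp [St.setR_reg, h25'], L', reps hrep', Or.inr ?_⟩
        refine ⟨by simp [St.setR_reg, h5'], by simp [St.setR_reg, h0], ?_⟩
        rw [← hacc]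
        simp [St.setR_reg]
  · refine ⟨by simp [St.setR_reg], by simp [St.setR_reg, h22], by simp [St.setR_reg, h2],
      by simp [St.setR_reg, h25], L, ⟨hrep.1, hrep.2⟩, Or.inl ⟨A.q₀, by simp [St.setR_reg, h5],
      by simp [St.setR_reg, h6], Iff.rfl, by omega⟩⟩
  · rintro s ⟨_, _, _, _, L', _, hcase⟩
    rcases hcase with ⟨q, _, _, _, hl⟩ | ⟨_, h0, hacc⟩
    · omega
    · exact ⟨h0, hacc⟩
  · have : (n + 1) * (b * (3 * (4 * (T.D * T.D) + 4 * T.D + 14)) + 12 * T.D + 40 + 0 + 2 + 3)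
        = (n + 1) * (b * (3 * (4 * (T.D * T.D) + 4 * T.D + 14)) + 12 * T.D + 45) := by ring
    omega

/-- The whole program. -/
noncomputable def prog (T : TA A) : Cmd :=
  .seq progA (.seq (progB T) (.seq (progC T)
    (.seq (.op (.const 6 (T.cZ (z0 A A.q₀)))) (.seq (.op (.const 5 1)) (.seq (.op (.const 25 0))
      (.seq (.op (.addc 22 1 1)) (progE T)))))))

/-- Initial state: register 1 holds the length of the input `x`, array 0 holds its letters,
all other registers and array entries are zero. -/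
def start (x : List (Fin m)) : St :=
  ⟨fun r => if r = 1 then x.length else 0,
    fun b i => if b = 0 then ((x[i]?).map Fin.val).getD 0 else 0⟩

theorem word_list (x : List (Fin m)) {k : ℕ} (hk : x.length ≤ k) :
    word (fun j => x[j]?) k = x := by
  have h : ∀ k, word (fun j => x[j]?) k = x.take k := by
    intro k
    induction k with
    | zero => simp [word]
    | succ k ih =>
      rw [word_succ, ih, List.take_add_one]
  rw [h, List.take_of_length_le hk]

theorem tr_prog {w : ℕ} (T : TA A) (x : List (Fin m)) (hD : T.D * T.D < 2 ^ w)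
    (hw : (Nat.sqrt x.length + 1) * (Nat.sqrt x.length + 1) + (Nat.sqrt x.length + 1) < 2 ^ w)
    (hn : x.length + 1 < 2 ^ w) :
    Tr w (prog T) (start x) (100 * (T.D * T.D) * ((x.length + 1) * (Nat.sqrt x.length + 1)))
      (fun s => s.reg 0 ≤ 1 ∧ (s.reg 0 = 1 ↔ x ∈ A.lang)) := by
  have hDge := T.D_ge
  have hDD : 2 * T.D ≤ T.D * T.D := Nat.mul_le_mul_right _ hDge
  set n := x.length with hnx
  set b := Nat.sqrt n + 1 with hb
  have hz := T.cZ_lt (z0 A A.q₀)
  have hnb : n < b * b := by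
    have := Nat.lt_succ_sqrt n
    simpa [hb] using this
  have key : Tr w (prog T) (start x) ((4 * b + 5) + ((b * b * (4 * T.D + 8) + 3) +
      ((b * (b * (4 * (T.D * T.D) + 8) + 9) + 3) + (1 + (1 + (1 + (1 +
      ((n + 1) * (b * (3 * (4 * (T.D * T.D) + 4 * T.D + 14)) + 12 * T.D + 45) + 3))))))))
      (fun s => s.reg 0 ≤ 1 ∧ (s.reg 0 = 1 ↔ x ∈ A.lang)) := by
    apply Tr.seq
    refine (tr_progA (n := n) _ (by simp [start, hnx]) hw hn).mono ?_
    rintro s1 ⟨hm1, a2, a19, a1⟩
    apply Tr.seq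
    refine (tr_progB (b := b) T x s1 hD (by omega) a1 a2 a19 ?_).mono ?_
    · intro i hi
      rw [hm1]
      simp [start, List.getElem?_eq_getElem hi]
    rintro s2 ⟨hL, b2, b1⟩
    apply Tr.seq
    refine (tr_progC T (fun j => x[j]?) s2 hD hw b2 b1 hL).mono ?_
    rintro s3 ⟨hrep, c2, c1⟩
    apply Tr.seq
    apply Tr.const (by omega)
    apply Tr.seq
    apply Tr.const (by omega)
    apply Tr.seq
    apply Tr.const (by omega)
    apply Tr.seq
    have e1 : (((s3.setR 6 (T.cZ (z0 A A.q₀))).setR 5 1).setR 25 0).reg 1 = n := by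
      simp [St.setR_reg, c1, hnx]
    apply Tr.addc
    · rw [e1]; exact hn
    rw [e1]
    have hwl : word (fun j => x[j]?) (b * b) = x := word_list x (by omega)
    refine (tr_progE T (fun j => x[j]?) ((((s3.setR 6 (T.cZ (z0 A A.q₀))).setR 5 1).setR 25
      0).setR 22 (n + 1)) n (by omega) hD hw hn ⟨hrep.1, hrep.2⟩
      (by rw [St.setR_reg, if_neg (by decide), St.setR_reg, if_neg (by decide), St.setR_reg,
        if_neg (by decide), St.setR_reg, if_neg (by decide), c2])
      (by rw [St.setR_reg, if_neg (by decide), St.setR_reg, if_pos rfl])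
      (by rw [St.setR_reg, if_pos rfl])
      (by rw [St.setR_reg, if_neg (by decide), St.setR_reg, if_neg (by decide), St.setR_reg,
        if_pos rfl])
      (by rw [St.setR_reg, if_neg (by decide), St.setR_reg, if_neg (by decide), St.setR_reg,
        if_neg (by decide), St.setR_reg, if_pos rfl]) (by rw [hwl])).mono ?_
    rintro s ⟨h0, hacc⟩
    rw [hwl] at hacc
    exact ⟨h0, hacc⟩
  refine key.le ?_
  have hb1 : 1 ≤ b := by omega
  have hbn : b ≤ n + 1 := by
    have := Nat.sqrt_le_self n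
    omega
  set P := (n + 1) * b with hP
  have p1 : b ≤ P := Nat.le_mul_of_pos_left b (by omega)
  have p2 : b * b ≤ P := Nat.mul_le_mul_right _ hbn
  have p3 : n + 1 ≤ P := Nat.le_mul_of_pos_right _ (by omega)
  have e3 : (n + 1) * (b * (3 * (4 * (T.D * T.D) + 4 * T.D + 14)) + 12 * T.D + 45)
      = P * (12 * (T.D * T.D) + 12 * T.D + 42) + (n + 1) * (12 * T.D + 45) := by
    rw [hP]; ring
  have e4 : b * (b * (4 * (T.D * T.D) + 8) + 9) = b * b * (4 * (T.D * T.D) + 8) + 9 * b := by ring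
  rw [e3, e4]
  have q1 : b * b * (4 * T.D + 8) ≤ P * (4 * T.D + 8) := Nat.mul_le_mul_right _ p2
  have q2 : b * b * (4 * (T.D * T.D) + 8) ≤ P * (4 * (T.D * T.D) + 8) :=
    Nat.mul_le_mul_right _ p2
  have q3 : (n + 1) * (12 * T.D + 45) ≤ P * (12 * T.D + 45) := Nat.mul_le_mul_right _ p3
  have q4 : P * (16 * (T.D * T.D) + 28 * T.D + 140) ≤ P * (100 * (T.D * T.D)) := by
    apply Nat.mul_le_mul_left
    have : 4 ≤ T.D * T.D := Nat.mul_le_mul hDge hDge
    omega
  have q5 : 100 * (T.D * T.D) * P = P * (100 * (T.D * T.D)) := Nat.mul_comm _ _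
  rw [q5]
  refine le_trans ?_ q4
  have e5 : P * (16 * (T.D * T.D) + 28 * T.D + 140) = P * (4 * T.D + 8) +
      P * (4 * (T.D * T.D) + 8) + P * (12 * T.D + 45) + P * (12 * (T.D * T.D) + 12 * T.D + 42)
      + P * 37 := by ring
  rw [e5]
  omega

end Pool.Agent.R536.TW
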