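import Pool.Agent.H588R2.BankLib

/-!
# Program macros: table lookup, search, composition
-/

namespace Pool.Agent.R536.TW

open Pool.Agent.H588R2.Bank

/-- Table lookup `r_d := f(r_a)` for `r_a < k`; `r_t` is scratch. -/
def tab1 (d a t : ℕ) (f : ℕ → ℕ) : ℕ → Cmd
  | 0 => .skip
  | k + 1 => .seq (tab1 d a t f k) (.seq (.op (.const t k))
      (.ite (.eq a t) (.op (.const d (f k))) .skip))

theorem tr_tab1_aux {w d a t : ℕ} {f : ℕ → ℕ} (hda : d ≠ a) (hta : t ≠ a) (hdt : d ≠ t) :
    ∀ (k : ℕ) (s : St), k ≤ 2 ^ w → (∀ i < k, f i < 2 ^ w) →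
      Tr w (tab1 d a t f k) s (k * 4) (fun s' => s'.mem = s.mem ∧
        s'.reg d = (if s.reg a < k then f (s.reg a) else s.reg d) ∧ Fx [d, t] s s') := by
  intro k
  induction k with
  | zero =>
    intro s _ _
    exact (Tr.skip ⟨rfl, by simp, Fx.refl _ _⟩).le (by omega)
  | succ k ih =>
    intro s hk hf
    have h1 : Tr w (tab1 d a t f (k + 1)) s (k * 4 + (1 + (1 + 0 + 2))) (fun s' => s'.mem = s.mem ∧
        s'.reg d = (if s.reg a < k + 1 then f (s.reg a) else s.reg d) ∧ Fx [d, t] s s') := by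
      apply Tr.seq
      refine (ih s (by omega) (fun i hi => hf i (by omega))).mono ?_
      rintro s' ⟨hm, hd, hfx⟩
      have ha : s'.reg a = s.reg a := hfx a (by simp [Ne.symm hda, Ne.symm hta])
      apply Tr.seq
      apply Tr.const (by omega)
      have hra : (s'.setR t k).reg a = s.reg a := by
        rw [St.setR_reg, if_neg (Ne.symm hta), ha]
      have hrt : (s'.setR t k).reg t = k := by rw [St.setR_reg, if_pos rfl]
      apply Tr.ite (T₁ := 1) (T₂ := 0)
      · intro heq
        have heq' : s.reg a = k := by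
          have : (s'.setR t k).reg a = (s'.setR t k).reg t := heq
          rw [hra, hrt] at this; exact this
        apply Tr.const (hf k (by omega))
        refine ⟨by simp [St.setR_mem, hm], ?_, ?_⟩
        · rw [St.setR_reg, if_pos rfl, if_pos (by omega), heq']
        · exact (hfx.setR (by simp) _).setR (by simp) _
      · intro hne
        have hne' : s.reg a ≠ k := by
          intro e
          apply hne
          show (s'.setR t k).reg a = (s'.setR t k).reg t
          rw [hra, hrt, e]
        apply Tr.skip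
        refine ⟨by simp [St.setR_mem, hm], ?_, hfx.setR (by simp) _⟩
        rw [St.setR_reg, if_neg hdt, hd]
        by_cases h : s.reg a < k
        · rw [if_pos h, if_pos (by omega)]
        · rw [if_neg h, if_neg (by omega)]
    exact h1.le (by omega)

theorem tr_tab1 {w d a t : ℕ} {f : ℕ → ℕ} (hda : d ≠ a) (hta : t ≠ a) (hdt : d ≠ t)
    (k : ℕ) (s : St) (hk : k ≤ 2 ^ w) (hf : ∀ i < k, f i < 2 ^ w) (ha : s.reg a < k) :
      Tr w (tab1 d a t f k) s (k * 4) (fun s' => s'.mem = s.mem ∧
        s'.reg d = f (s.reg a) ∧ Fx [d, t] s s') := by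
  refine (tr_tab1_aux hda hta hdt k s hk hf).mono ?_
  rintro s' ⟨h1, h2, h3⟩
  rw [if_pos ha] at h2
  exact ⟨h1, h2, h3⟩

/-- Table lookup `r_d := f(r_a, r_b)` for `r_a, r_b < D`; `r_t`, `r_u` are scratch. -/
def tab2 (d a b t u : ℕ) (f : ℕ → ℕ → ℕ) (D : ℕ) : Cmd :=
  .seq (.op (.const t D)) (.seq (.op (.mul u a t)) (.seq (.op (.add u u b))
    (tab1 d u t (fun x => f (x / D) (x % D)) (D * D))))

theorem tr_tab2 {w d a b t u : ℕ} {f : ℕ → ℕ → ℕ} {D : ℕ} (hbu : b ≠ u)
    (hat : a ≠ t) (hbt : b ≠ t) (hdu : d ≠ u) (hdt : d ≠ t) (htu : t ≠ u)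
    (s : St) (hD : D * D < 2 ^ w) (hf : ∀ x y, f x y < D)
    (ha : s.reg a < D) (hb : s.reg b < D) :
      Tr w (tab2 d a b t u f D) s (4 * (D * D) + 3) (fun s' => s'.mem = s.mem ∧
        s'.reg d = f (s.reg a) (s.reg b) ∧ Fx [d, t, u] s s') := by
  have hDpos : 0 < D := by omega
  have hDD : D ≤ D * D := Nat.le_mul_of_pos_left D hDpos
  have h1 : Tr w (tab2 d a b t u f D) s (1 + (1 + (1 + (D * D) * 4))) (fun s' => s'.mem = s.mem ∧
        s'.reg d = f (s.reg a) (s.reg b) ∧ Fx [d, t, u] s s') := by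
    apply Tr.seq
    apply Tr.const (by omega)
    apply Tr.seq
    have e1 : (s.setR t D).reg a = s.reg a := by rw [St.setR_reg, if_neg hat]
    have e2 : (s.setR t D).reg t = D := by rw [St.setR_reg, if_pos rfl]
    have hmul : s.reg a * D + s.reg b < D * D := by
      have : (s.reg a + 1) * D ≤ D * D := Nat.mul_le_mul_right _ ha
      rw [Nat.add_mul] at this
      omega
    apply Tr.mul
    · rw [e1, e2]; omega
    rw [e1, e2]
    apply Tr.seq
    have e3 : ((s.setR t D).setR u (s.reg a * D)).reg u = s.reg a * D := by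
      rw [St.setR_reg, if_pos rfl]
    have e4 : ((s.setR t D).setR u (s.reg a * D)).reg b = s.reg b := by
      rw [St.setR_reg, if_neg hbu, St.setR_reg, if_neg hbt]
    apply Tr.add
    · rw [e3, e4]; omega
    rw [e3, e4]
    have e5 : ((((s.setR t D).setR u (s.reg a * D)).setR u (s.reg a * D + s.reg b))).reg u
        = s.reg a * D + s.reg b := by rw [St.setR_reg, if_pos rfl]
    refine (tr_tab1 hdu htu hdt (D * D) _ (by omega) ?_ ?_).mono ?_
    · intro i _
      have := hf (i / D) (i % D)
      omega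
    · rw [e5]; exact hmul
    · rintro s' ⟨hm, hd, hfx⟩
      refine ⟨by rw [hm]; simp [St.setR_mem], ?_, ?_⟩
      · rw [hd, e5]
        have e6 : (s.reg a * D + s.reg b) / D = s.reg a := by
          rw [Nat.mul_comm, Nat.mul_add_div hDpos, Nat.div_eq_of_lt hb, Nat.add_zero]
        have e7 : (s.reg a * D + s.reg b) % D = s.reg b := by
          rw [Nat.mul_comm, Nat.mul_add_mod, Nat.mod_eq_of_lt hb]
        rw [e6, e7]
      · have hfx' : Fx [d, t, u] (((s.setR t D).setR u (s.reg a * D)).setR u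
            (s.reg a * D + s.reg b)) s' := hfx.mono (by intro r hr; simp at hr ⊢; tauto)
        exact ((((Fx.refl [d, t, u] s).setR (by simp) _).setR (by simp) _).setR (by simp) _).trans
          hfx'
  exact h1.le (by omega)

/-- Composition of the functions `g o, g (o+1), …, g (o+k-1)` (in this order). -/
def seg {α : Type} (g : ℕ → α → α) (o : ℕ) : ℕ → α → α
  | 0 => id
  | k + 1 => fun z => g (o + k) (seg g o k z)

@[simp] theorem seg_zero {α : Type} (g : ℕ → α → α) (o : ℕ) (z : α) : seg g o 0 z = z := rfl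

theorem seg_succ {α : Type} (g : ℕ → α → α) (o k : ℕ) (z : α) :
    seg g o (k + 1) z = g (o + k) (seg g o k z) := rfl

theorem seg_add {α : Type} (g : ℕ → α → α) (o k : ℕ) : ∀ (l : ℕ) (z : α),
    seg g o (k + l) z = seg g (o + k) l (seg g o k z) := by
  intro l
  induction l with
  | zero => intro z; rfl
  | succ l ih =>
    intro z
    rw [← Nat.add_assoc, seg_succ, seg_succ, ih, Nat.add_assoc]

theorem seg_blocks {α : Type} (g : ℕ → α → α) (b : ℕ) : ∀ (t : ℕ) (z : α),
    seg (fun i => seg g (i * b) b) 0 t z = seg g 0 (t * b) z := by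
  intro t
  induction t with
  | zero => intro z; simp
  | succ t ih =>
    intro z
    rw [seg_succ, ih, Nat.zero_add, Nat.succ_mul, seg_add, Nat.zero_add]

theorem seg_congr {α : Type} {g g' : ℕ → α → α} {o : ℕ} : ∀ {k : ℕ},
    (∀ i < k, g (o + i) = g' (o + i)) → seg g o k = seg g' o k := by
  intro k
  induction k with
  | zero => intro _; rfl
  | succ k ih =>
    intro h
    funext z
    rw [seg_succ, seg_succ, ih (fun i hi => h i (by omega)), h k (by omega)]

/-- Number tables for computing with a finite set `Z` of states, the functions `Z → Z`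
and the letters `0, …, m-1` acting on `Z`. -/
structure Tb (Z : Type) (m : ℕ) (halt hitp accp : Z → Prop) (nx : Z → Z)
    (la : Fin m → Z → Z) where
  D : ℕ
  cZ : Z → ℕ
  cE : (Z → Z) → ℕ
  app : ℕ → ℕ → ℕ
  comp : ℕ → ℕ → ℕ
  hal : ℕ → ℕ
  hit : ℕ → ℕ
  acc : ℕ → ℕ
  nxt : ℕ → ℕ
  lc : ℕ → ℕ
  D_ge : 2 ≤ D
  m_le : m ≤ D
  cZ_lt : ∀ z, cZ z < D
  cE_lt : ∀ g, cE g < D
  app_lt : ∀ x y, app x y < D
  comp_lt : ∀ x y, comp x y < D
  hal_le : ∀ x, hal x ≤ 1
  hit_le : ∀ x, hit x ≤ 1
  acc_le : ∀ x, acc x ≤ 1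
  nxt_lt : ∀ x, nxt x < D
  lc_lt : ∀ x, lc x < D
  app_eq : ∀ g z, app (cE g) (cZ z) = cZ (g z)
  comp_eq : ∀ g h, comp (cE g) (cE h) = cE (fun z => h (g z))
  hal_one : ∀ z, hal (cZ z) = 1 ↔ halt z
  hit_one : ∀ z, hit (cZ z) = 1 ↔ hitp z
  acc_one : ∀ z, acc (cZ z) = 1 ↔ accp z
  nxt_eq : ∀ z, nxt (cZ z) = cZ (nx z)
  lc_eq : ∀ a : Fin m, lc a = cE (la a)

open Classical in
theorem exists_tb (Z : Type) [Finite Z] [Nonempty Z] (m : ℕ) (halt hitp accp : Z → Prop)
    (nx : Z → Z) (la : Fin m → Z → Z) : Nonempty (Tb Z m halt hitp accp nx la) := by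
  let eZ := Finite.equivFin Z
  let eE := Finite.equivFin (Z → Z)
  let cZ : Z → ℕ := fun z => (eZ z).val
  let cE : (Z → Z) → ℕ := fun g => (eE g).val
  have hZ : Function.Injective cZ := fun a b h => eZ.injective (Fin.ext h)
  have hE : Function.Injective cE := fun a b h => eE.injective (Fin.ext h)
  have lZ : ∀ z, Function.invFun cZ (cZ z) = z := Function.leftInverse_invFun hZ
  have lE : ∀ z, Function.invFun cE (cE z) = z := Function.leftInverse_invFun hE
  let D := Nat.card Z + Nat.card (Z → Z) + m + 2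
  have kZ : ∀ z, cZ z < D := fun z => by
    have := (eZ z).isLt
    show (eZ z).val < Nat.card Z + Nat.card (Z → Z) + m + 2
    omega
  have kE : ∀ z, cE z < D := fun z => by
    have := (eE z).isLt
    show (eE z).val < Nat.card Z + Nat.card (Z → Z) + m + 2
    omega
  refine ⟨{
    D := D
    cZ := cZ
    cE := cE
    app := fun x y => cZ ((Function.invFun cE x) (Function.invFun cZ y))
    comp := fun x y => cE (fun z => (Function.invFun cE y) ((Function.invFun cE x) z))
    hal := fun x => if halt (Function.invFun cZ x) then 1 else 0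
    hit := fun x => if hitp (Function.invFun cZ x) then 1 else 0
    acc := fun x => if accp (Function.invFun cZ x) then 1 else 0
    nxt := fun x => cZ (nx (Function.invFun cZ x))
    lc := fun x => if h : x < m then cE (la ⟨x, h⟩) else 0
    D_ge := by show 2 ≤ Nat.card Z + Nat.card (Z → Z) + m + 2; omega
    m_le := by show m ≤ Nat.card Z + Nat.card (Z → Z) + m + 2; omega
    cZ_lt := kZ
    cE_lt := kE
    app_lt := fun x y => kZ _
    comp_lt := fun x y => kE _
    hal_le := fun x => by split_ifs <;> omega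
    hit_le := fun x => by split_ifs <;> omega
    acc_le := fun x => by split_ifs <;> omega
    nxt_lt := fun x => kZ _
    lc_lt := fun x => by
      split_ifs
      · exact kE _
      · show 0 < Nat.card Z + Nat.card (Z → Z) + m + 2; omega
    app_eq := fun g z => by rw [lZ, lE]
    comp_eq := fun g h => by rw [lE, lE]
    hal_one := fun z => by rw [lZ]; split_ifs with h <;> simp [h]
    hit_one := fun z => by rw [lZ]; split_ifs with h <;> simp [h]
    acc_one := fun z => by rw [lZ]; split_ifs with h <;> simp [h]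
    nxt_eq := fun z => by rw [lZ]
    lc_eq := fun a => by
      show (if h : a.val < m then cE (la ⟨a.val, h⟩) else 0) = _
      rw [dif_pos a.isLt] }⟩

end Pool.Agent.R536.TW
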