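import Pool.Agent.R536.TW.Arr

/-!
# One round of the main loop
-/

namespace Pool.Agent.R536.TW

open Pool.Agent.H588R2.Bank

variable {Q : Type} {m : ℕ} {A : DFAwtw Q m}

/-- One round: search for the first letter that can be read, delete it. -/
noncomputable def mainStep (T : TA A) : Cmd :=
  .seq (.op (.addc 7 6 0)) (.seq (.op (.const 11 0)) (.seq (srch T 1)
    (.seq (tab1 15 7 17 T.hit T.D)
      (.ite (.lt 25 15)
        (.seq (.op (.addc 16 9 0)) (.seq (.op (.mul 11 16 2)) (.seq (.op (.addc 26 7 0))
          (.seq (.op (.addc 7 10 0)) (.seq (srch T 2) (.seq (.op (.const 13 (T.cE id)))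
            (.seq (.op (.store 2 9 13)) (.seq (recomp T) (tab1 6 26 17 T.nxt T.D)))))))))
        (.seq (tab1 0 7 17 T.acc T.D) (.op (.const 5 0)))))))

/-- The arrays 1 and 2 represent the letters `L`. -/
structure Rep (T : TA A) (L : ℕ → Option (Fin m)) (b : ℕ) (s : St) : Prop where
  leaf : ∀ j < b * b, s.mem 2 j = T.cE (zactO A (L j))
  blk : ∀ t < b, s.mem 1 t = T.cE (seg (fun i => zactO A (L i)) (t * b) b)

theorem tr_mainStep {w : ℕ} (T : TA A) (L : ℕ → Option (Fin m)) (b : ℕ) (q : Q)
    (s0 : St) (hb : 1 ≤ b) (hD : T.D * T.D < 2 ^ w) (hbb : b * b + b < 2 ^ w)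
    (hrep : Rep T L b s0) (h2 : s0.reg 2 = b) (h25 : s0.reg 25 = 0)
    (h6 : s0.reg 6 = T.cZ (z0 A q)) (h5 : s0.reg 5 = 1) :
    Tr w (mainStep T) s0 (b * (3 * (4 * (T.D * T.D) + 4 * T.D + 14)) + 12 * T.D + 40)
      (fun s => ∃ L', Rep T L' b s ∧
        ((∃ q', s.reg 5 = 1 ∧ s.reg 6 = T.cZ (z0 A q') ∧
          (A.Accepts (.conf q (word L (b * b))) ↔ A.Accepts (.conf q' (word L' (b * b)))) ∧
          (word L' (b * b)).length + 1 = (word L (b * b)).length) ∨
        (s.reg 5 = 0 ∧ s.reg 0 ≤ 1 ∧ (s.reg 0 = 1 ↔ A.Accepts (.conf q (word L (b * b)))))) ∧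
        s.reg 2 = b ∧ s.reg 25 = 0 ∧ s.reg 4 = s0.reg 4 ∧ s.reg 22 = s0.reg 22) := by
  have hDge := T.D_ge
  have hDD : T.D ≤ T.D * T.D := Nat.le_mul_of_pos_left T.D (by omega)
  have hb2 : b ≤ b * b := Nat.le_mul_of_pos_left b (by omega)
  set G : ℕ → Z A → Z A := fun i => zactO A (L i) with hG
  set gB : ℕ → Z A → Z A := fun t => seg G (t * b) b with hgB
  set S := b * (4 * (T.D * T.D) + 4 * T.D + 14) + 4 with hS
  set R := b * (4 * (T.D * T.D) + 8) + 6 with hR
  have key : Tr w (mainStep T) s0 (1 + (1 + (S + (T.D * 4 +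
      ((1 + (1 + (1 + (1 + (S + (1 + (1 + (R + T.D * 4)))))))) + (T.D * 4 + 1) + 2)))))
      (fun s => ∃ L', Rep T L' b s ∧
        ((∃ q', s.reg 5 = 1 ∧ s.reg 6 = T.cZ (z0 A q') ∧
          (A.Accepts (.conf q (word L (b * b))) ↔ A.Accepts (.conf q' (word L' (b * b)))) ∧
          (word L' (b * b)).length + 1 = (word L (b * b)).length) ∨
        (s.reg 5 = 0 ∧ s.reg 0 ≤ 1 ∧ (s.reg 0 = 1 ↔ A.Accepts (.conf q (word L (b * b)))))) ∧
        s.reg 2 = b ∧ s.reg 25 = 0 ∧ s.reg 4 = s0.reg 4 ∧ s.reg 22 = s0.reg 22) := by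
    apply Tr.seq
    have hz0 := T.cZ_lt (z0 A q)
    apply Tr.addc
    · rw [h6]; omega
    rw [h6, Nat.add_zero]
    apply Tr.seq
    apply Tr.const (by omega)
    apply Tr.seq
    refine (tr_srch T 1 0 b gB (z0 A q) _ hD (by omega) ?_ ?_ ?_ ?_).mono ?_
    · intro i hi
      rw [Nat.zero_add]
      simp only [St.setR_mem]
      exact hrep.blk i hi
    · simp [St.setR_reg, h2]
    · simp [St.setR_reg]
    · simp [St.setR_reg]
    rintro s1 ⟨hm1, hres, hfx1⟩
    have g7 : s1.reg 7 = T.cZ (seg G 0 (b * b) (z0 A q)) := by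
      rw [hres.z, seg_blocks]
    have hm1' : s1.mem = s0.mem := by rw [hm1]; simp [St.setR_mem]
    have hr : ∀ r, r ∉ srchL → r ≠ 11 → r ≠ 7 → s1.reg r = s0.reg r := by
      intro r hr h11 h7
      rw [hfx1 r hr, St.setR_reg, if_neg h11, St.setR_reg, if_neg h7]
    apply Tr.seq
    refine (tr_tab1 (by decide) (by decide) (by decide) T.D _ (by omega)
      (fun i _ => by have := T.hit_le i; omega) (by rw [g7]; exact T.cZ_lt _)).mono ?_
    rintro s2 ⟨hm2, h15, hfx2⟩
    rw [g7] at h15
    have hm2' : s2.mem = s0.mem := by rw [hm2, hm1']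
    have hr2 : ∀ r, r ∉ srchL → r ≠ 11 → r ≠ 7 → s2.reg r = s0.reg r := by
      intro r hr' h11 h7
      rw [hfx2 r (by
        intro hmem
        apply hr'
        simp at hmem
        rcases hmem with rfl | rfl <;> decide), hr r hr' h11 h7]
    have g7' : s2.reg 7 = T.cZ (seg G 0 (b * b) (z0 A q)) := by
      rw [hfx2 7 (by decide), g7]
    have e25 : s2.reg 25 = 0 := by rw [hr2 25 (by decide) (by decide) (by decide), h25]
    apply Tr.ite
    · intro hlt
      have hlt' : s2.reg 25 < s2.reg 15 := hlt
      rw [e25, h15] at hlt'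
      have hh := T.hit_le (T.cZ (seg G 0 (b * b) (z0 A q)))
      have hhit : ∃ p, (seg G 0 (b * b) (z0 A q)).1 = .hit p := by
        rw [← T.hit_one]; omega
      obtain ⟨p, hp⟩ := hhit
      -- the first search found a block
      have hfin : seg gB 0 b (z0 A q) = seg G 0 (b * b) (z0 A q) := seg_blocks G b b _
      have hfnd : ∃ t < b, Halted (seg gB 0 (t + 1) (z0 A q)).1 ∧
          (∀ i < t, ¬ Halted (seg gB 0 (i + 1) (z0 A q)).1) ∧ s1.reg 9 = 0 + t ∧
          s1.reg 10 = T.cZ (seg gB 0 t (z0 A q)) := by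
        rcases hres.fnd with ⟨_, hno⟩ | ⟨_, h⟩
        · exfalso
          have := hno (b - 1) (by omega)
          rw [show b - 1 + 1 = b by omega, hfin, hp] at this
          exact this trivial
        · exact h
      obtain ⟨t, ht, ht1, ht2, h9, h10⟩ := hfnd
      rw [Nat.zero_add] at h9
      have hnt : ¬ Halted (seg gB 0 t (z0 A q)).1 := by
        rcases Nat.eq_zero_or_pos t with rfl | htp
        · exact fun h => h
        · have := ht2 (t - 1) (by omega)
          rwa [show t - 1 + 1 = t by omega] at this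
      have htb : t * b + b ≤ b * b := by
        have : (t + 1) * b ≤ b * b := Nat.mul_le_mul_right _ ht
        rwa [Nat.add_mul, Nat.one_mul] at this
      have q9 : s2.reg 9 = t := by rw [hfx2 9 (by decide), h9]
      have q10 : s2.reg 10 = T.cZ (seg gB 0 t (z0 A q)) := by rw [hfx2 10 (by decide), h10]
      have q2 : s2.reg 2 = b := by rw [hr2 2 (by decide) (by decide) (by decide), h2]
      apply Tr.seq
      apply Tr.addc
      · rw [q9]; omega
      rw [q9, Nat.add_zero]
      apply Tr.seq
      have a16 : (s2.setR 16 t).reg 16 = t := by simp [St.setR_reg]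
      have a2 : (s2.setR 16 t).reg 2 = b := by simp [St.setR_reg, q2]
      apply Tr.mul
      · rw [a16, a2]; omega
      rw [a16, a2]
      apply Tr.seq
      have b7 : ((s2.setR 16 t).setR 11 (t * b)).reg 7
          = T.cZ (seg G 0 (b * b) (z0 A q)) := by simp [St.setR_reg, g7']
      have hzf := T.cZ_lt (seg G 0 (b * b) (z0 A q))
      apply Tr.addc
      · rw [b7]; omega
      rw [b7, Nat.add_zero]
      apply Tr.seq
      set s3 := ((s2.setR 16 t).setR 11 (t * b)).setR 26 (T.cZ (seg G 0 (b * b) (z0 A q)))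
        with hs3
      have c10 : s3.reg 10 = T.cZ (seg gB 0 t (z0 A q)) := by
        simp [hs3, St.setR_reg, q10]
      have hzt := T.cZ_lt (seg gB 0 t (z0 A q))
      apply Tr.addc
      · rw [c10]; omega
      rw [c10, Nat.add_zero]
      apply Tr.seq
      have hm3 : (s3.setR 7 (T.cZ (seg gB 0 t (z0 A q)))).mem = s0.mem := by
        simp [hs3, St.setR_mem, hm2']
      refine (tr_srch T 2 (t * b) b (fun i => G (t * b + i)) (seg gB 0 t (z0 A q)) _ hD
        (by omega) ?_ ?_ ?_ ?_).mono ?_
      · intro i hi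
        rw [hm3]
        exact hrep.leaf _ (by omega)
      · simp [hs3, St.setR_reg, q2]
      · simp [hs3, St.setR_reg]
      · simp [St.setR_reg]
      rintro s4 ⟨hm4, hres4, hfx4⟩
      have hblk : ∀ k, seg (fun i => G (t * b + i)) 0 k (seg gB 0 t (z0 A q))
          = seg G 0 (t * b + k) (z0 A q) := by
        intro k
        rw [seg_shift, seg_add, Nat.zero_add, seg_blocks]
      have hfnd4 : ∃ i1 < b, Halted (seg G 0 (t * b + i1 + 1) (z0 A q)).1 ∧
          (∀ i < i1, ¬ Halted (seg G 0 (t * b + i + 1) (z0 A q)).1) ∧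
          s4.reg 9 = t * b + i1 := by
        rcases hres4.fnd with ⟨_, hno⟩ | ⟨_, i1, hi1, x1, x2, x3, _⟩
        · exfalso
          have := hno (b - 1) (by omega)
          rw [show b - 1 + 1 = b by omega, hblk] at this
          apply this
          have e : seg G 0 (t * b + b) (z0 A q) = seg gB 0 (t + 1) (z0 A q) := by
            rw [seg_blocks, Nat.add_mul, Nat.one_mul]
          rw [e]
          exact ht1
        · refine ⟨i1, hi1, ?_, ?_, x3⟩
          · rw [hblk] at x1
            exact x1
          · intro i hi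
            have := x2 i hi
            rw [hblk] at this
            exact this
      obtain ⟨i1, hi1, x1, x2, x3⟩ := hfnd4
      have hnj : ¬ Halted (seg G 0 (t * b + i1) (z0 A q)).1 := by
        rcases Nat.eq_zero_or_pos i1 with rfl | hip
        · rw [Nat.add_zero, ← seg_blocks]
          exact hnt
        · have := x2 (i1 - 1) (by omega)
          rwa [show t * b + (i1 - 1) + 1 = t * b + i1 by omega] at this
      have hjB : t * b + i1 < b * b := by omega
      obtain ⟨hacc, hlen⟩ := step_hit A L q p hjB hp hnj x1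
      set L' := Function.update L (t * b + i1) none with hL'
      set G' : ℕ → Z A → Z A := fun i => zactO A (L' i) with hG'
      have hm4' : s4.mem = s0.mem := by rw [hm4, hm3]
      have hr4 : ∀ r, r ∉ srchL → r ≠ 11 → r ≠ 7 → r ≠ 26 → r ≠ 16 → s4.reg r = s0.reg r := by
        intro r hr' h11 h7 h26 h16
        rw [hfx4 r hr', St.setR_reg, if_neg h7, hs3, St.setR_reg, if_neg h26, St.setR_reg,
          if_neg h11, St.setR_reg, if_neg h16, hr2 r hr' h11 h7]
      have r16 : s4.reg 16 = t := by
        rw [hfx4 16 (by decide)]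
        simp [hs3, St.setR_reg]
      have r26 : s4.reg 26 = T.cZ (seg G 0 (b * b) (z0 A q)) := by
        rw [hfx4 26 (by decide)]
        simp [hs3, St.setR_reg]
      apply Tr.seq
      have hid := T.cE_lt id
      apply Tr.const (by omega)
      apply Tr.seq
      apply Tr.store
      have d9 : (s4.setR 13 (T.cE id)).reg 9 = t * b + i1 := by simp [St.setR_reg, x3]
      have d13 : (s4.setR 13 (T.cE id)).reg 13 = T.cE id := by simp [St.setR_reg]
      rw [d9, d13]
      set s5 := (s4.setR 13 (T.cE id)).setM 2 (t * b + i1) (T.cE id) with hs5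
      have m2 : ∀ j, s5.mem 2 j = if j = t * b + i1 then T.cE id else s0.mem 2 j := by
        intro j
        rw [hs5, St.setM_mem]
        simp only [true_and, St.setR_mem, hm4']
      have m1 : ∀ j, s5.mem 1 j = s0.mem 1 j := by
        intro j
        rw [hs5, St.setM_mem, if_neg (by simp), St.setR_mem, hm4']
      have leaf' : ∀ j < b * b, s5.mem 2 j = T.cE (G' j) := by
        intro j hj
        rw [m2]
        by_cases hjj : j = t * b + i1
        · rw [if_pos hjj, hG']
          simp only [hL', hjj, Function.update_self]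
          rfl
        · rw [if_neg hjj, hG']
          simp only [hL', Function.update_of_ne hjj]
          exact hrep.leaf j hj
      apply Tr.seq
      refine (tr_recomp T b t G' s5 hD (by omega) ?_ ?_ ?_).mono ?_
      · intro i hi
        exact leaf' _ (by omega)
      · rw [hs5, St.setM_reg, St.setR_reg, if_neg (by decide),
          hr4 2 (by decide) (by decide) (by decide) (by decide) (by decide), h2]
      · rw [hs5, St.setM_reg, St.setR_reg, if_neg (by decide), r16]
      rintro s6 ⟨hm6, hfx6⟩
      have u26 : s6.reg 26 = T.cZ (seg G 0 (b * b) (z0 A q)) := by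
        rw [hfx6 26 (by decide), hs5, St.setM_reg, St.setR_reg, if_neg (by decide), r26]
      refine (tr_tab1 (by decide) (by decide) (by decide) T.D _ (by omega)
        (fun i _ => by have := T.nxt_lt i; omega) (by rw [u26]; exact T.cZ_lt _)).mono ?_
      rintro s7 ⟨hm7, h6', hfx7⟩
      rw [u26, T.nxt_eq, nx_hit A hp] at h6'
      have hr7 : ∀ r, r ∉ srchL → r ∉ recL → r ≠ 11 → r ≠ 7 → r ≠ 26 → r ≠ 16 → r ≠ 13 →
          r ≠ 6 → r ≠ 17 → s7.reg r = s0.reg r := by
        intro r a1 a2 a3 a4 a5 a6 a7 a8 a9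
        rw [hfx7 r (by simp [a8, a9]), hfx6 r a2, hs5, St.setM_reg, St.setR_reg, if_neg a7,
          hr4 r a1 a3 a4 a5 a6]
      refine ⟨L', ⟨?_, ?_⟩, Or.inl ⟨p, ?_, h6', hacc, hlen⟩, ?_, ?_, ?_, ?_⟩
      · intro j hj
        rw [hm7, hm6, St.setM_mem, if_neg (by simp)]
        exact leaf' j hj
      · intro t' ht'
        rw [hm7, hm6, St.setM_mem]
        by_cases htt : t' = t
        · rw [if_pos ⟨rfl, htt⟩, htt]
        · rw [if_neg (by simp [htt]), m1, hrep.blk t' ht']
          congr 1
          apply seg_congr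
          intro i hi
          have hne : t' * b + i ≠ t * b + i1 := by
            intro e
            rcases Nat.lt_or_gt_of_ne htt with h | h
            · have : (t' + 1) * b ≤ t * b := Nat.mul_le_mul_right _ h
              rw [Nat.add_mul, Nat.one_mul] at this
              omega
            · have : (t + 1) * b ≤ t' * b := Nat.mul_le_mul_right _ h
              rw [Nat.add_mul, Nat.one_mul] at this
              omega
          simp only [hL', Function.update_of_ne hne]
      · rw [hr7 5 (by decide) (by decide) (by decide) (by decide) (by decide) (by decide)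
          (by decide) (by decide) (by decide), h5]
      · rw [hr7 2 (by decide) (by decide) (by decide) (by decide) (by decide) (by decide)
          (by decide) (by decide) (by decide), h2]
      · rw [hr7 25 (by decide) (by decide) (by decide) (by decide) (by decide) (by decide)
          (by decide) (by decide) (by decide), h25]
      · rw [hr7 4 (by decide) (by decide) (by decide) (by decide) (by decide) (by decide)
          (by decide) (by decide) (by decide)]
      · rw [hr7 22 (by decide) (by decide) (by decide) (by decide) (by decide) (by decide)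
          (by decide) (by decide) (by decide)]
    · intro hlt
      have hlt' : ¬ s2.reg 25 < s2.reg 15 := hlt
      rw [e25, h15] at hlt'
      have hnhit : ¬ ∃ p, (seg G 0 (b * b) (z0 A q)).1 = .hit p := by
        rw [← T.hit_one]; omega
      have hend := step_end A L q hnhit
      apply Tr.seq
      refine (tr_tab1 (by decide) (by decide) (by decide) T.D _ (by omega)
        (fun i _ => by have := T.acc_le i; omega) (by rw [g7']; exact T.cZ_lt _)).mono ?_
      rintro s3 ⟨hm3, h0, hfx3⟩
      rw [g7'] at h0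
      apply Tr.const (by omega)
      refine ⟨L, ⟨?_, ?_⟩, Or.inr ⟨?_, ?_, ?_⟩, ?_, ?_, ?_, ?_⟩
      · intro j hj
        rw [St.setR_mem, hm3, hm2']
        exact hrep.leaf j hj
      · intro t' ht'
        rw [St.setR_mem, hm3, hm2']
        exact hrep.blk t' ht'
      · simp [St.setR_reg]
      · rw [St.setR_reg, if_neg (by decide), h0]
        exact T.acc_le _
      · rw [St.setR_reg, if_neg (by decide), h0, T.acc_one, hend]
      · rw [St.setR_reg, if_neg (by decide), hfx3 2 (by decide),
          hr2 2 (by decide) (by decide) (by decide), h2]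
      · rw [St.setR_reg, if_neg (by decide), hfx3 25 (by decide),
          hr2 25 (by decide) (by decide) (by decide), h25]
      · rw [St.setR_reg, if_neg (by decide), hfx3 4 (by decide),
          hr2 4 (by decide) (by decide) (by decide)]
      · rw [St.setR_reg, if_neg (by decide), hfx3 22 (by decide),
          hr2 22 (by decide) (by decide) (by decide)]
  refine key.le ?_
  have e1 : b * (3 * (4 * (T.D * T.D) + 4 * T.D + 14))
      = 3 * (b * (4 * (T.D * T.D) + 4 * T.D + 14)) := by ring
  have e2 : b * (4 * (T.D * T.D) + 8) ≤ b * (4 * (T.D * T.D) + 4 * T.D + 14) :=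
    Nat.mul_le_mul_left _ (by omega)
  rw [e1]
  omega

end Pool.Agent.R536.TW
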